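import Mathlib
import Pool.Agent.Q17.DC.Stm4
import Pool.Agent.Q111.DC.PRT

/-!
# Project DC: block components of class functions, restriction to sections
-/

set_option autoImplicit false

open scoped BigOperators Classical
open Pool.Agent.H254R3.IN Pool.Agent.Helper884 Pool.Agent.Q17.DC Pool.Agent.Q17.TC
open Pool.Agent.Q111.DC

noncomputable section

namespace Pool.Agent.Q261.DC

/-- dimension of a sum of subspaces which are separated by endomorphisms -/
lemma finrank_sup_proj {I V : Type} [AddCommGroup V] [Module ℂ V] [FiniteDimensional ℂ V]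
    (s : Finset I) (W : I → Submodule ℂ V) (E : I → V →ₗ[ℂ] V)
    (h1 : ∀ i ∈ s, ∀ w ∈ W i, E i w = w)
    (h2 : ∀ i ∈ s, ∀ j ∈ s, i ≠ j → ∀ w ∈ W j, E i w = 0) :
    Module.finrank ℂ (⨆ i ∈ s, W i : Submodule ℂ V) = ∑ i ∈ s, Module.finrank ℂ (W i) := by
  induction s using Finset.induction_on with
  | empty => simp
  | insert a s ha ih =>
    rw [Finset.iSup_insert, Finset.sum_insert ha]
    have h3 : W a ⊓ (⨆ i ∈ s, W i) = ⊥ := by
      rw [Submodule.eq_bot_iff]
      rintro v ⟨hv1, hv2⟩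
      have h4 : (⨆ i ∈ s, W i) ≤ LinearMap.ker (E a) := by
        refine iSup₂_le fun i hi w hw => ?_
        rw [LinearMap.mem_ker]
        exact h2 a (Finset.mem_insert_self a s) i (Finset.mem_insert_of_mem hi)
          (fun h => ha (h ▸ hi)) w hw
      rw [← h1 a (Finset.mem_insert_self a s) v hv1]
      exact h4 hv2
    have h5 := Submodule.finrank_sup_add_finrank_inf_eq (W a) (⨆ i ∈ s, W i)
    rw [h3, finrank_bot, add_zero] at h5
    rw [h5, ih (fun i hi => h1 i (Finset.mem_insert_of_mem hi))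
      (fun i hi j hj => h2 i (Finset.mem_insert_of_mem hi) j (Finset.mem_insert_of_mem hj))]

section cmp

variable {A : Type} [Group A] [Fintype A]

lemma comp_irr {χ : A → ℂ} (hχ : IsIrr χ) {e : A → ℂ} (he : IsCl e) (g : A) :
    ∑ t : A, e t * χ (g * t) = Om e χ * χ g := by
  obtain ⟨V, _, _, _, ρ, hr, rfl⟩ := hχ
  have h1 := class_scalar ρ hr e he
  have h2 := congrArg (fun T => LinearMap.trace ℂ V (ρ g * T)) h1
  have h3 : ∀ t : A, ρ g * (e t • ρ t) = e t • ρ (g * t) := by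
    intro t
    rw [map_mul, mul_smul_comm]
  have h4 : ρ g * (((∑ g, e g * ρ.character g) / ρ.character 1) • (LinearMap.id : V →ₗ[ℂ] V)) =
      ((∑ g, e g * ρ.character g) / ρ.character 1) • ρ g := by
    rw [mul_smul_comm]
    rfl
  simp only [Finset.mul_sum, h3, h4, map_sum, map_smul, smul_eq_mul] at h2
  exact h2

/-- the block component -/
def cmpL (β : Set (A → ℂ)) : (A → ℂ) →ₗ[ℂ] (A → ℂ) where
  toFun h g := ∑ t : A, blockCoeff β t * h (g * t)
  map_add' f h := by
    funext g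
    simp only [Pi.add_apply, mul_add, Finset.sum_add_distrib]
  map_smul' c f := by
    funext g
    simp only [Pi.smul_apply, smul_eq_mul, RingHom.id_apply, Finset.mul_sum]
    exact Finset.sum_congr rfl fun t _ => by ring

lemma cmpL_apply (β : Set (A → ℂ)) (h : A → ℂ) (g : A) :
    cmpL β h g = ∑ t : A, blockCoeff β t * h (g * t) := rfl

lemma cmpL_irr {β : Set (A → ℂ)} (hβ : ∀ χ ∈ β, IsIrr χ) {χ : A → ℂ} (hχ : IsIrr χ) :
    cmpL β χ = if χ ∈ β then χ else 0 := by
  funext g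
  rw [cmpL_apply, comp_irr hχ (blockCoeff_cl hβ), Om_blockCoeff hβ hχ]
  split_ifs
  · rw [one_mul]
  · rw [zero_mul]
    rfl

lemma cmpL_self {β : Set (A → ℂ)} (hβ : ∀ χ ∈ β, IsIrr χ) {f : A → ℂ}
    (hf : f ∈ Submodule.span ℂ β) : cmpL β f = f := by
  have h1 : Submodule.span ℂ β ≤ LinearMap.ker (cmpL β - LinearMap.id) := by
    refine Submodule.span_le.2 fun χ hχ => ?_
    rw [SetLike.mem_coe, LinearMap.mem_ker, LinearMap.sub_apply, cmpL_irr hβ (hβ χ hχ), if_pos hχ]
    exact sub_self _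
  have h2 := h1 hf
  rw [LinearMap.mem_ker, LinearMap.sub_apply, sub_eq_zero] at h2
  exact h2

lemma cmpL_other {β β' : Set (A → ℂ)} (hβ : ∀ χ ∈ β, IsIrr χ) (hβ' : ∀ χ ∈ β', IsIrr χ)
    (hd : ∀ χ ∈ β', χ ∉ β) {f : A → ℂ} (hf : f ∈ Submodule.span ℂ β') : cmpL β f = 0 := by
  have h1 : Submodule.span ℂ β' ≤ LinearMap.ker (cmpL β) := by
    refine Submodule.span_le.2 fun χ hχ => ?_
    rw [SetLike.mem_coe, LinearMap.mem_ker, cmpL_irr hβ (hβ' χ hχ), if_neg (hd χ hχ)]
  exact h1 hf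

/-- the span of the irreducible characters -/
def CF (A : Type) [Group A] : Submodule ℂ (A → ℂ) := Submodule.span ℂ {χ | IsIrr χ}

lemma cl_mem {h : A → ℂ} (hh : IsCl h) : h ∈ CF A := by
  have h1 := IC.expand h hh
  rw [h1]
  refine Submodule.sum_mem _ fun χ hχ => Submodule.smul_mem _ _ (Submodule.subset_span ?_)
  exact mem_Irr.1 hχ

lemma CF_cl {h : A → ℂ} (hh : h ∈ CF A) : IsCl h := by
  intro g y
  have h1 : CF A ≤ LinearMap.ker ((LinearMap.proj (y * g * y⁻¹) : (A → ℂ) →ₗ[ℂ] ℂ) -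
      LinearMap.proj g) := by
    refine Submodule.span_le.2 fun χ hχ => ?_
    rw [SetLike.mem_coe, LinearMap.mem_ker, LinearMap.sub_apply, LinearMap.proj_apply,
      LinearMap.proj_apply, sub_eq_zero]
    exact IsIrr.conj hχ g y
  have h2 := h1 hh
  rw [LinearMap.mem_ker, LinearMap.sub_apply, LinearMap.proj_apply,
      LinearMap.proj_apply, sub_eq_zero] at h2
  exact h2

lemma cmpL_mem {β : Set (A → ℂ)} (hβ : ∀ χ ∈ β, IsIrr χ) {h : A → ℂ} (hh : h ∈ CF A) :
    cmpL β h ∈ Submodule.span ℂ β := by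
  have h1 : CF A ≤ (Submodule.span ℂ β).comap (cmpL β) := by
    refine Submodule.span_le.2 fun χ hχ => ?_
    rw [SetLike.mem_coe, Submodule.mem_comap, cmpL_irr hβ hχ]
    split_ifs with hm
    · exact Submodule.subset_span hm
    · exact Submodule.zero_mem _
  exact h1 hh

lemma mem_Bls {O : ValuationSubring ℂ} {β : Set (A → ℂ)} : β ∈ Bls O ↔ IsBlock O β := by
  constructor
  · intro h
    obtain ⟨χ, hχ, rfl⟩ := Finset.mem_image.mp h
    exact Bl_block (mem_Irr.mp hχ)
  · rintro ⟨χ, hχ, rfl⟩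
    exact Finset.mem_image_of_mem _ (mem_Irr.mpr hχ)

lemma sum_cmp (O : ValuationSubring ℂ) (h : A → ℂ) : ∑ β ∈ Bls O, cmpL β h = h := by
  funext g
  rw [Finset.sum_apply]
  simp only [cmpL_apply]
  rw [Finset.sum_comm]
  have h2 : ∀ t : A, ∑ β ∈ Bls O, blockCoeff β t * h (g * t) = dl t * h (g * t) := by
    intro t
    rw [← Finset.sum_mul, ← congrFun (sum_blocks (A := A) O) t]
  simp only [h2]
  unfold dl
  simp

/-- blocks are equal or disjoint -/
lemma block_disj {O : ValuationSubring ℂ} {β β' : Set (A → ℂ)} (h : IsBlock O β)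
    (h' : IsBlock O β') (hne : β ≠ β') : ∀ χ ∈ β', χ ∉ β := by
  rintro χ hχ' hχ
  obtain ⟨a, ha, rfl⟩ := h
  obtain ⟨b, hb, rfl⟩ := h'
  exact hne ((Bl_eq (O := O) hχ).trans (Bl_eq (O := O) hχ').symm)

lemma block_eqc {O : ValuationSubring ℂ} {β : Set (A → ℂ)} (h : IsBlock O β) {χ : A → ℂ}
    (hχ : χ ∈ β) : β = Bl O χ := by
  obtain ⟨a, ha, rfl⟩ := h
  exact Bl_eq (O := O) hχ

lemma CF_eq (O : ValuationSubring ℂ) : CF A = ⨆ β ∈ Bls (A := A) O, Submodule.span ℂ β := by
  refine le_antisymm ?_ ?_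
  · refine Submodule.span_le.2 fun χ hχ => ?_
    have h1 : Submodule.span ℂ (Bl O χ) ≤ ⨆ β ∈ Bls (A := A) O, Submodule.span ℂ β :=
      le_iSup₂_of_le (Bl O χ) (mem_Bls.2 (Bl_block hχ)) le_rfl
    exact h1 (Submodule.subset_span (mem_Bl_self hχ))
  · refine iSup₂_le fun β hβ => Submodule.span_mono fun χ hχ => ?_
    exact (mem_Bls.1 hβ).irr χ hχ

/-- linear independence of the irreducible characters in a block -/
lemma finrank_block {β : Set (A → ℂ)} (hβ : ∀ χ ∈ β, IsIrr χ) :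
    Module.finrank ℂ (Submodule.span ℂ β) = Nat.card β := by
  have hli : LinearIndependent ℂ (fun x : β => (x : A → ℂ)) := by
    rw [linearIndependent_iff']
    intro s c hc i hi
    have h1 := congrArg (fun F => IC.B F i.1) hc
    rw [IC.B_sum_left] at h1
    simp only [IC.B_smul_left] at h1
    rw [Finset.sum_eq_single i] at h1
    · rw [IC.B_irr (hβ _ i.2) (hβ _ i.2), if_pos rfl, mul_one] at h1
      rw [h1]
      simp [IC.B]
    · intro j _ hj
      rw [IC.B_irr (hβ _ j.2) (hβ _ i.2), if_neg (fun h => hj (Subtype.ext h)), mul_zero]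
    · intro h
      exact absurd hi h
  haveI : Finite β := hli.setFinite
  haveI : Fintype β := Fintype.ofFinite β
  rw [finrank_span_set_eq_card hli, Set.toFinset_card, Nat.card_eq_fintype_card]

end cmp

section sec

variable {A : Type} [Group A]

/-- uniqueness of the `p`-part -/
lemma part_unique {p : ℕ} [hp : Fact p.Prime] {z s z' s' : A} [Finite A] (h : z * s = z' * s')
    (c : Commute z s) (c' : Commute z' s') (hz : ∃ k, orderOf z = p ^ k)
    (hz' : ∃ k, orderOf z' = p ^ k) (hs : ¬ p ∣ orderOf s) (hs' : ¬ p ∣ orderOf s') : z = z' := by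
  obtain ⟨k, hk⟩ := hz
  obtain ⟨k', hk'⟩ := hz'
  have hcop : Nat.Coprime (p ^ (k + k')) (orderOf s * orderOf s') :=
    Nat.Coprime.pow_left _ (((Nat.Prime.coprime_iff_not_dvd hp.out).2 hs).mul_right
      ((Nat.Prime.coprime_iff_not_dvd hp.out).2 hs'))
  obtain ⟨a, ha1, ha2⟩ := Nat.chineseRemainder hcop 1 0
  have e1 : ∀ {w t : A} {l : ℕ}, Commute w t → orderOf w = p ^ l → l ≤ k + k' →
      orderOf t ∣ orderOf s * orderOf s' → (w * t) ^ a = w := by
    intro w t l hc hw hl ht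
    have h1 : w ^ a = w ^ 1 := pow_eq_pow_iff_modEq.2 (by
      rw [hw]
      exact ha1.of_dvd (pow_dvd_pow p hl))
    have h2 : t ^ a = t ^ 0 := pow_eq_pow_iff_modEq.2 (ha2.of_dvd ht)
    rw [hc.mul_pow, h1, h2, pow_one, pow_zero, mul_one]
  rw [← e1 c hk (by omega) (dvd_mul_right _ _), h, e1 c' hk' (by omega) (dvd_mul_left _ _)]

lemma InS_parts {p : ℕ} [Fact p.Prime] [Finite A] {u z s : A} (c : Commute z s)
    (hz : ∃ k, orderOf z = p ^ k) (hs : ¬ p ∣ orderOf s) : InS p u (z * s) ↔ IsConj u z := by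
  constructor
  · rintro ⟨z', s', h1, h2, h3, h4, h5⟩
    rw [part_unique h1 c h2 hz h3 hs h4]
    exact h5
  · intro h
    exact ⟨z, s, rfl, c, hz, hs, h⟩

lemma InS_conj {p : ℕ} {u x : A} (y : A) (h : InS p u x) : InS p u (y * x * y⁻¹) := by
  obtain ⟨z, s, rfl, h2, ⟨k, h3⟩, h4, h5⟩ := h
  refine ⟨y * z * y⁻¹, y * s * y⁻¹, by group, ?_, ⟨k, ?_⟩, ?_, ?_⟩
  · show y * z * y⁻¹ * (y * s * y⁻¹) = y * s * y⁻¹ * (y * z * y⁻¹)
    have e1 : y * z * y⁻¹ * (y * s * y⁻¹) = y * (z * s) * y⁻¹ := by group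
    have e2 : y * s * y⁻¹ * (y * z * y⁻¹) = y * (s * z) * y⁻¹ := by group
    rw [e1, e2, h2.eq]
  · rw [← h3]
    exact orderOf_injective (MulAut.conj y).toMonoidHom (MulAut.conj y).injective z
  · have e3 : orderOf (y * s * y⁻¹) = orderOf s :=
      orderOf_injective (MulAut.conj y).toMonoidHom (MulAut.conj y).injective s
    rw [e3]
    exact h4
  · exact h5.trans (isConj_iff.2 ⟨y, rfl⟩)

lemma InS_conj_iff {p : ℕ} {u x : A} (y : A) : InS p u (y * x * y⁻¹) ↔ InS p u x := by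
  refine ⟨fun h => ?_, InS_conj y⟩
  have h1 := InS_conj y⁻¹ h
  have e : y⁻¹ * (y * x * y⁻¹) * y⁻¹⁻¹ = x := by group
  rwa [e] at h1

lemma InS_one {p : ℕ} [hp : Fact p.Prime] [Finite A] (x : A) : InS p 1 x ↔ ¬ p ∣ orderOf x := by
  constructor
  · rintro ⟨z, s, rfl, h2, h3, h4, h5⟩
    have hz : z = 1 := by
      obtain ⟨c, hc⟩ := isConj_iff.1 h5
      rw [← hc]
      group
    rw [hz, one_mul]
    exact h4
  · intro h
    exact ⟨1, x, (one_mul x).symm, Commute.one_left x, ⟨0, by rw [orderOf_one, pow_zero]⟩, h,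
      IsConj.refl 1⟩

/-- restriction to the section -/
def rS (p : ℕ) (u : A) : (A → ℂ) →ₗ[ℂ] (A → ℂ) where
  toFun f x := if InS p u x then f x else 0
  map_add' f h := by
    funext x
    simp only [Pi.add_apply]
    split_ifs
    · rfl
    · rw [add_zero]
  map_smul' c f := by
    funext x
    simp only [Pi.smul_apply, RingHom.id_apply]
    split_ifs
    · rfl
    · rw [smul_zero]

lemma rS_apply (p : ℕ) (u : A) (f : A → ℂ) (x : A) :
    rS p u f x = if InS p u x then f x else 0 := rfl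

lemma rS_rS (p : ℕ) (u : A) (f : A → ℂ) : rS p u (rS p u f) = rS p u f := by
  funext x
  rw [rS_apply, rS_apply]
  split_ifs
  · rfl
  · rfl

lemma dS_eq (p : ℕ) (u : A) (B : Set (A → ℂ)) :
    dS p u B = Module.finrank ℂ ((Submodule.span ℂ B).map (rS p u)) := by
  unfold dS
  rw [Submodule.map_span]
  have h : {f : A → ℂ | ∃ χ ∈ B, ∀ x, f x = if InS p u x then χ x else 0} = rS p u '' B := by
    ext f
    constructor
    · rintro ⟨χ, hχ, h⟩
      exact ⟨χ, hχ, (funext h).symm⟩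
    · rintro ⟨χ, hχ, rfl⟩
      exact ⟨χ, hχ, fun x => rfl⟩
  rw [h]

lemma lB_eq (p : ℕ) [Fact p.Prime] [Finite A] (B : Set (A → ℂ)) : lB p B = dS p (1 : A) B := by
  unfold lB dS
  have h : {f : A → ℂ | ∃ χ ∈ B, ∀ x, f x = if p ∣ orderOf x then 0 else χ x} =
      {f : A → ℂ | ∃ χ ∈ B, ∀ x, f x = if InS p 1 x then χ x else 0} := by
    ext f
    refine exists_congr fun χ => and_congr_right fun _ => forall_congr' fun x => ?_
    by_cases hx : p ∣ orderOf x
    · rw [if_pos hx, if_neg (fun h => (InS_one x).1 h hx)]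
    · rw [if_neg hx, if_pos ((InS_one x).2 hx)]
  rw [h]

lemma rS_cl {p : ℕ} {u : A} {f : A → ℂ} (hf : IsCl f) : IsCl (rS p u f) := by
  intro g y
  rw [rS_apply, rS_apply]
  by_cases h : InS p u g
  · rw [if_pos h, if_pos ((InS_conj_iff y).2 h), hf]
  · rw [if_neg h, if_neg (fun h' => h ((InS_conj_iff y).1 h'))]

/-- the restriction of a member of a block to a section is in the span of the block -/
theorem rS_stab [Fintype A] (sect : S_SECT) {p : ℕ} [Fact p.Prime] {O : ValuationSubring ℂ}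
    (hp : (p : ℂ) ∈ O.nonunits) {B : Set (A → ℂ)} (hB : IsBlock O B) (u : A) :
    (Submodule.span ℂ B).map (rS p u) ≤ Submodule.span ℂ B := by
  rw [Submodule.map_le_iff_le_comap]
  refine Submodule.span_le.2 fun χ hχ => ?_
  rw [SetLike.mem_coe, Submodule.mem_comap]
  have hirr := hB.irr χ hχ
  have hcl : IsCl χ := fun g y => hirr.conj g y
  have hint : ∀ x, IsIntegral ℤ (rS p u χ x) := by
    intro x
    rw [rS_apply]
    split_ifs
    · exact hirr.isIntegral x
    · exact isIntegral_zero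
  have key : ∀ β ∈ Bls (A := A) O, β ≠ B → cmpL β (rS p u χ) = 0 := by
    intro β hβ hne
    have hβ' := mem_Bls.1 hβ
    have h0 : cmpL β χ = 0 := by
      rw [cmpL_irr hβ'.irr hirr, if_neg]
      exact block_disj hβ' hB hne χ hχ
    funext g
    obtain ⟨a, b, k, hg, hc, ha, hb, -, -⟩ := p_parts p g
    by_cases hu : IsConj u a
    · have h1 := sect A p O hp β hβ' (fun x => χ x - rS p u χ x)
        (fun g y => by
          show χ (y * g * y⁻¹) - rS p u χ (y * g * y⁻¹) = χ g - rS p u χ g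
          rw [hcl, rS_cl hcl])
        (fun x => (hirr.isIntegral x).sub (hint x)) a ⟨k, ha⟩
        (fun x hx hpx => by
          show χ (a * x) - rS p u χ (a * x) = 0
          rw [rS_apply, if_pos ((InS_parts hx ⟨k, ha⟩ hpx).2 hu), sub_self]) b hc hb
      have h2 : ∑ t : A, blockCoeff β t * (χ (a * b * t) - rS p u χ (a * b * t)) =
          cmpL β χ g - cmpL β (rS p u χ) g := by
        rw [cmpL_apply, cmpL_apply, ← Finset.sum_sub_distrib, hg]
        exact Finset.sum_congr rfl fun t _ => by ring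
      rw [h2, h0, Pi.zero_apply, zero_sub, neg_eq_zero] at h1
      rw [h1]
      rfl
    · have h1 := sect A p O hp β hβ' (rS p u χ) (rS_cl hcl) hint a ⟨k, ha⟩
        (fun x hx hpx => by
          rw [rS_apply, if_neg (fun h => hu ((InS_parts hx ⟨k, ha⟩ hpx).1 h))]) b hc hb
      rw [cmpL_apply, hg, h1]
      rfl
  have h3 := sum_cmp (A := A) O (rS p u χ)
  rw [Finset.sum_eq_single B (fun β hβ hne => key β hβ hne)
    (fun h => absurd (mem_Bls.2 hB) h)] at h3
  rw [← h3]
  exact cmpL_mem hB.irr (cl_mem (rS_cl hcl))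

end sec

end Pool.Agent.Q261.DC
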