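import Pool.Agent.Q17.DC.Stm3
import Pool.Agent.Q38.DC.EXI

/-! Job BRX of project DC: the Brauer homomorphism of a block idempotent. -/

set_option autoImplicit false
set_option linter.unusedSectionVars false

open scoped BigOperators Classical
open Pool.Agent.H254R3.IN Pool.Agent.Y63.KR Pool.Agent.Q17.TC Pool.Agent.Q17.DC
open Pool.Agent.Q176.DC Pool.Agent.Helper884 Pool.Agent.Q38.DC Pool.Agent.Q111.DC

noncomputable section

namespace Pool.Agent.Q261.DC

section uniq

variable {A : Type} [Group A] [Fintype A]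

lemma conv_comm' {f h : A → ℂ} (hf : IsCl f) (hh : IsCl h) : conv f h = conv h f :=
  eq_of_Om (hf.conv hh) (hh.conv hf) fun χ hχ => by
    rw [Om_conv hχ hf hh, Om_conv hχ hh hf, mul_comm]

lemma cl_sub {f h : A → ℂ} (hf : IsCl f) (hh : IsCl h) : IsCl (fun a => f a - h a) := by
  intro g y
  show f (y * g * y⁻¹) - h (y * g * y⁻¹) = f g - h g
  rw [hf g y, hh g y]

/-- one half of the uniqueness of idempotents -/
lemma idem_half {O : ValuationSubring ℂ} {u v : A → ℂ} (hu : IsCl u) (hv : IsCl v)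
    (huO : ∀ a, u a ∈ O) (hvO : ∀ a, v a ∈ O) (hui : ∀ a, red O (conv u u a) = red O (u a))
    (hvi : ∀ a, red O (conv v v a) = red O (v a))
    (hOm : ∀ θ : A → ℂ, IsIrr θ → red O (Om u θ) = red O (Om v θ)) (x : A) :
    red O (u x) = red O (conv u v x) := by
  have hw : IsCl (fun a => u a - conv u v a) := cl_sub hu (hu.conv hv)
  have hwO : ∀ a, (fun a => u a - conv u v a) a ∈ O := fun a => sub_mem' (huO a)
    (conv_mem huO hvO a)
  have hU := hu.conv hu
  have hV := hv.conv hv
  have hUO : ∀ a, conv u u a ∈ O := conv_mem huO huO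
  have hVO : ∀ a, conv v v a ∈ O := conv_mem hvO hvO
  have hww : conv (fun a => u a - conv u v a) (fun a => u a - conv u v a) =
      fun a => (conv u u a - conv (conv u u) v a) -
        (conv (conv u u) v a - conv (conv u u) (conv v v) a) := by
    refine eq_of_Om (hw.conv hw) ?_ fun χ hχ => ?_
    · exact cl_sub (cl_sub hU (hU.conv hv)) (cl_sub (hU.conv hv) (hU.conv hV))
    · rw [Om_conv hχ hw hw, Om_sub, Om_conv hχ hu hv,
        Om_sub (fun a => conv u u a - conv (conv u u) v a)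
          (fun a => conv (conv u u) v a - conv (conv u u) (conv v v) a) χ,
        Om_sub (conv u u) (conv (conv u u) v) χ,
        Om_sub (conv (conv u u) v) (conv (conv u u) (conv v v)) χ,
        Om_conv hχ hU hv, Om_conv hχ hU hV, Om_conv hχ hu hu, Om_conv hχ hv hv]
      ring
  have hid : ∀ a, red O (conv (fun a => u a - conv u v a) (fun a => u a - conv u v a) a) =
      red O ((fun a => u a - conv u v a) a) := by
    intro a
    rw [hww]
    have e1 := red_conv hUO hvO huO hvO hui (fun _ => rfl) a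
    have e2 := red_conv hUO hVO huO hvO hui hvi a
    have m1 := conv_mem hUO hvO a
    have m2 := conv_mem hUO hVO a
    show red O ((conv u u a - conv (conv u u) v a) -
        (conv (conv u u) v a - conv (conv u u) (conv v v) a)) = red O (u a - conv u v a)
    rw [red_sub (sub_mem' (hUO a) m1) (sub_mem' m1 m2), red_sub (hUO a) m1, red_sub m1 m2,
      red_sub (huO a) (conv_mem huO hvO a), e1, e2, hui, sub_self, sub_zero]
  by_contra hne
  have hx : red O ((fun a => u a - conv u v a) x) ≠ 0 := by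
    show red O (u x - conv u v x) ≠ 0
    rw [red_sub (huO x) (conv_mem huO hvO x)]
    exact sub_ne_zero.2 hne
  obtain ⟨φ, hφ, hφe⟩ := exists_char hw hwO hid x hx
  apply hφe
  have hOu := (red_Om hφ hu huO).1
  have hOv := (red_Om hφ hv hvO).1
  rw [Om_sub u (conv u v) φ, Om_conv hφ hu hv, red_sub hOu (O.mul_mem _ _ hOu hOv),
    red_mul hOu hOv, ← hOm φ hφ]
  have h1 : red O (Om u φ) * red O (Om u φ) = red O (Om u φ) := by
    rw [← red_mul hOu hOu, ← Om_conv hφ hu hu]
    exact red_Om_congr hφ hU hu hUO huO hui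
  rw [h1, sub_self]

/-- idempotents modulo the maximal ideal are determined by their central characters -/
lemma idem_uniq {O : ValuationSubring ℂ} {u v : A → ℂ} (hu : IsCl u) (hv : IsCl v)
    (huO : ∀ a, u a ∈ O) (hvO : ∀ a, v a ∈ O) (hui : ∀ a, red O (conv u u a) = red O (u a))
    (hvi : ∀ a, red O (conv v v a) = red O (v a))
    (hOm : ∀ θ : A → ℂ, IsIrr θ → red O (Om u θ) = red O (Om v θ)) (x : A) :
    red O (u x) = red O (v x) := by
  rw [idem_half hu hv huO hvO hui hvi hOm x,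
    idem_half hv hu hvO huO hvi hui (fun θ hθ => (hOm θ hθ).symm) x, conv_comm' hu hv]

/-- restriction to the centraliser, extended by zero -/
def cut (E : Subgroup A) (f : A → ℂ) (a : A) : ℂ :=
  if a ∈ Subgroup.centralizer (E : Set A) then f a else 0

lemma cut_of_mem {E : Subgroup A} {f : A → ℂ} {a : A}
    (h : a ∈ Subgroup.centralizer (E : Set A)) : cut E f a = f a := if_pos h

lemma cut_of_not {E : Subgroup A} {f : A → ℂ} {a : A}
    (h : a ∉ Subgroup.centralizer (E : Set A)) : cut E f a = 0 := if_neg h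

lemma cut_mem {O : ValuationSubring ℂ} {E : Subgroup A} {f : A → ℂ} (hf : ∀ a, f a ∈ O) (a : A) :
    cut E f a ∈ O := by
  unfold cut
  split_ifs
  · exact hf a
  · exact O.zero_mem

lemma cent_conj {E : Subgroup A} [hE : E.Normal] {a : A} (y : A)
    (h : a ∈ Subgroup.centralizer (E : Set A)) :
    y * a * y⁻¹ ∈ Subgroup.centralizer (E : Set A) := by
  rw [Subgroup.mem_centralizer_iff] at h ⊢
  intro d hd
  have h1 : y⁻¹ * d * y ∈ (E : Set A) := by
    have := hE.conj_mem d hd y⁻¹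
    rwa [inv_inv] at this
  have h2 := h _ h1
  calc d * (y * a * y⁻¹) = y * ((y⁻¹ * d * y) * a) * y⁻¹ := by group
    _ = y * (a * (y⁻¹ * d * y)) * y⁻¹ := by rw [h2]
    _ = y * a * y⁻¹ * d := by group

lemma cut_cl {E : Subgroup A} [hE : E.Normal] {f : A → ℂ} (hf : IsCl f) : IsCl (cut E f) := by
  intro g y
  by_cases h : g ∈ Subgroup.centralizer (E : Set A)
  · rw [cut_of_mem h, cut_of_mem (cent_conj y h), hf]
  · rw [cut_of_not h, cut_of_not]
    intro h'
    apply h
    have h2 := cent_conj y⁻¹ h'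
    have h3 : y⁻¹ * (y * g * y⁻¹) * y⁻¹⁻¹ = g := by group
    rwa [h3] at h2

lemma cut_idem {O : ValuationSubring ℂ} {E : Subgroup A} {f : A → ℂ} (hfO : ∀ a, f a ∈ O)
    (h : ∀ c ∈ Subgroup.centralizer (E : Set A), red O (f c) =
      ∑ x : Subgroup.centralizer (E : Set A), red O (f x * f ((x : A)⁻¹ * c))) (a : A) :
    red O (conv (cut E f) (cut E f) a) = red O (cut E f a) := by
  unfold conv
  by_cases ha : a ∈ Subgroup.centralizer (E : Set A)
  · rw [cut_of_mem ha, h a ha, red_sum _ _ fun x _ => O.mul_mem _ _ (cut_mem hfO x) (cut_mem hfO _)]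
    have h1 : ∑ x : A, red O (cut E f x * cut E f (x⁻¹ * a)) =
        ∑ x ∈ Finset.univ.filter (fun x => x ∈ Subgroup.centralizer (E : Set A)),
          red O (f x * f (x⁻¹ * a)) := by
      rw [Finset.sum_filter]
      refine Finset.sum_congr rfl fun x _ => ?_
      by_cases hx : x ∈ Subgroup.centralizer (E : Set A)
      · rw [if_pos hx, cut_of_mem hx, cut_of_mem (mul_mem (inv_mem hx) ha)]
      · rw [if_neg hx, cut_of_not hx, zero_mul, red_zero]
    rw [h1]
    exact Finset.sum_subtype _ (fun x => by simp) (fun x : A => red O (f x * f (x⁻¹ * a)))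
  · rw [cut_of_not ha, red_zero, Finset.sum_eq_zero, red_zero]
    intro x _
    by_cases hx : x ∈ Subgroup.centralizer (E : Set A)
    · have h2 : x⁻¹ * a ∉ Subgroup.centralizer (E : Set A) := fun h' => ha (by
        have := mul_mem hx h'
        rwa [mul_inv_cancel_left] at this)
      rw [cut_of_not h2, mul_zero]
    · rw [cut_of_not hx, zero_mul]

lemma cut_Om {O : ValuationSubring ℂ} {p : ℕ} [Fact p.Prime] (hp : (p : ℂ) ∈ O.nonunits)
    {E : Subgroup A} [hE : E.Normal] (hEp : IsPGroup p E) {f θ : A → ℂ} (hθ : IsIrr θ)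
    (hf : IsCl f) (hfO : ∀ a, f a ∈ O) :
    red O (Om (cut E f) θ) = red O (Om f θ) :=
  red_Om_cent hp hEp hθ (cut_cl hf) hf (cut_mem hfO) hfO fun a ha => by rw [cut_of_mem ha]

end uniq

section main

variable {G : Type} [Group G] [Fintype G]

lemma hsum (N : Subgroup G) (θ : N → ℂ) (w : G) :
    ∑ᶠ y : {y : N // IsConj w (y : G)}, θ y / θ 1 = Om (rs N (ind w)) θ := by
  rw [finsum_eq_sum_of_fintype]
  unfold Om rs ind
  simp only [ite_mul, one_mul, zero_mul]
  rw [← Finset.sum_filter, Finset.sum_div]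
  rw [Finset.sum_subtype (Finset.univ.filter (fun y : N => IsConj w (y : G)))
    (p := fun y : N => IsConj w (y : G)) (by intro y; simp)]

lemma expand {u : G → ℂ} (hu : IsCl u) (g : G) :
    u g = ∑ K : ConjClasses G, u (rep K) * ind (rep K) g := by
  rw [Finset.sum_eq_single (ConjClasses.mk g)]
  · unfold ind
    rw [if_pos (rep_mk g), mul_one, hu.isConj (rep_mk g)]
  · intro K _ hK
    unfold ind
    rw [if_neg (fun h => hK ((mk_eq_iff g K).2 h).symm), mul_zero]
  · intro h
    exact absurd (Finset.mem_univ _) h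

/-- `θ` induces the central character of `B` -/
def Idc (O : ValuationSubring ℂ) (B : Set (G → ℂ)) (N : Subgroup G) (θ : N → ℂ) : Prop :=
  ∀ χ ∈ B, ∀ x : G, omega χ x - ∑ᶠ y : {y : N // IsConj x (y : G)}, θ y / θ 1 ∈ O.nonunits

lemma Om_rs {O : ValuationSubring ℂ} {N : Subgroup G} {θ : N → ℂ} (hθ : IsIrr θ) {χ : G → ℂ}
    (hχ : IsIrr χ)
    (h : ∀ x : G, omega χ x - ∑ᶠ y : {y : N // IsConj x (y : G)}, θ y / θ 1 ∈ O.nonunits)
    {u : G → ℂ} (hu : IsCl u) (huO : ∀ g, u g ∈ O) :
    red O (Om (rs N u) θ) = red O (Om u χ) := by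
  have h1 : Om (rs N u) θ = ∑ K : ConjClasses G, u (rep K) * Om (rs N (ind (rep K))) θ := by
    have h2 : rs N u = fun c : N => ∑ K : ConjClasses G, u (rep K) * rs N (ind (rep K)) c := by
      funext c
      exact expand hu (c : G)
    rw [h2, Om_sum Finset.univ (fun (K : ConjClasses G) (c : N) =>
      u (rep K) * rs N (ind (rep K)) c) θ]
    exact Finset.sum_congr rfl fun K _ => Om_smul _ _ _
  have hm : ∀ w : G, Om (rs N (ind w)) θ ∈ O := fun w =>
    (red_Om hθ (rs_cl N (ind_cl w)) (rs_mem N (ind_mem O w))).1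
  rw [h1, red_sum _ _ fun K _ => O.mul_mem _ _ (huO _) (hm _), (red_Om hχ hu huO).2]
  refine Finset.sum_congr rfl fun K _ => ?_
  rw [red_mul (huO _) (hm _)]
  congr 1
  have h3 := h (rep K)
  rw [hsum] at h3
  exact ((red_eq_iff (hχ.omega_mem O _) (hm _)).2 h3).symm

lemma Idc_congr {O : ValuationSubring ℂ} {B : Set (G → ℂ)} (hB : IsBlock O B) {N : Subgroup G}
    {β : Set (N → ℂ)} (hβ : IsBlock O β) {θ θ' : N → ℂ} (h : θ ∈ β) (h' : θ' ∈ β)
    (hI : Idc O B N θ) : Idc O B N θ' := by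
  intro χ hχ x
  have hθ := hβ.irr θ h
  have hθ' := hβ.irr θ' h'
  have h1 := hI χ hχ x
  rw [hsum] at h1 ⊢
  have e1 := red_Om hθ (rs_cl N (ind_cl x)) (rs_mem N (ind_mem O x))
  have e2 := red_Om hθ' (rs_cl N (ind_cl x)) (rs_mem N (ind_mem O x))
  have hχO := (hB.irr χ hχ).omega_mem O x
  rw [← red_eq_iff hχO e1.1] at h1
  rw [← red_eq_iff hχO e2.1, h1, e1.2, e2.2]
  exact Finset.sum_congr rfl fun K _ => by rw [hβ.red_eq h h']

variable {p : ℕ} [Fact p.Prime] {O : ValuationSubring ℂ}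

lemma val (hp : (p : ℂ) ∈ O.nonunits) (D : Subgroup G) (hD : IsPGroup p D) (N : Subgroup G)
    (hN : N = Subgroup.normalizer (D : Set G)) {B : Set (G → ℂ)} (hB : IsBlock O B) {θ : N → ℂ}
    (hθ : IsIrr θ) :
    red O (Om (rs N (blockCoeff B)) θ) = if Idc O B N θ then 1 else 0 := by
  have hcl := blockCoeff_cl hB.irr
  have hbO := blockCoeff_mem hB
  by_cases hI : Idc O B N θ
  · obtain ⟨χ, hχ⟩ := hB.nonempty
    rw [if_pos hI, Om_rs hθ (hB.irr χ hχ) (hI χ hχ) hcl hbO, Om_blockCoeff hB.irr (hB.irr χ hχ),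
      if_pos hχ, red_one]
  · obtain ⟨B', hB', hw⟩ := exi_main (O := O) hp D hD N hN hθ
    obtain ⟨χ', hχ'⟩ := hB'.nonempty
    have hi' := hB'.irr χ' hχ'
    have hnot : χ' ∉ B := by
      intro hmem
      apply hI
      intro χ hχ x
      have h1 := hw χ' hχ' x
      have h2 := (red_congr (hi'.omega_mem O x) h1)
      rw [← red_eq_iff ((hB.irr χ hχ).omega_mem O x) h2.1, hB.red_eq hχ hmem, h2.2]
    rw [if_neg hI, Om_rs hθ hi' (hw χ' hχ') hcl hbO, Om_blockCoeff hB.irr hi', if_neg hnot,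
      red_zero]

theorem main1 (hp : (p : ℂ) ∈ O.nonunits) (D : Subgroup G) (hD : IsPGroup p D) (N : Subgroup G)
    (hN : N = Subgroup.normalizer (D : Set G)) {B : Set (G → ℂ)} (hB : IsBlock O B) (x : N)
    (hx : ∀ d ∈ D, Commute d (x : G)) :
    blockCoeff B (x : G) - ∑ᶠ β : Blw O B N, blockCoeff β.1 x ∈ O.nonunits := by
  have hle : D ≤ N := by rw [hN]; exact Subgroup.le_normalizer
  have hnorm : (D.subgroupOf N).Normal := by
    subst hN
    exact Subgroup.normal_in_normalizer
  have hDN : IsPGroup p (D.subgroupOf N) := hD.comap_subtype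
  have hcl := blockCoeff_cl hB.irr
  have hbO := blockCoeff_mem hB
  obtain ⟨S, hS⟩ : ∃ S : Finset (Set (N → ℂ)), ∀ β, β ∈ S ↔ IsBlock O β ∧
      ∀ χ ∈ B, ∀ θ ∈ β, ∀ x : G,
        omega χ x - ∑ᶠ y : {y : N // IsConj x (y : G)}, θ y / θ 1 ∈ O.nonunits := by
    refine ⟨(Bls O).filter (fun β => ∀ χ ∈ B, ∀ θ ∈ β, ∀ x : G,
        omega χ x - ∑ᶠ y : {y : N // IsConj x (y : G)}, θ y / θ 1 ∈ O.nonunits), fun β => ?_⟩
    rw [Finset.mem_filter]
    have h1 : β ∈ Bls (A := N) O ↔ IsBlock O β := by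
      unfold Bls
      rw [Finset.mem_image]
      constructor
      · rintro ⟨χ, hχ, rfl⟩
        exact Bl_block (mem_Irr.1 hχ)
      · rintro ⟨χ, hχ, rfl⟩
        exact ⟨χ, mem_Irr.2 hχ, rfl⟩
    rw [h1]
  have hirr : ∀ β ∈ S, ∀ θ ∈ β, IsIrr θ := fun β hβ => ((hS β).1 hβ).1.irr
  have hfin : ∑ᶠ β : Blw O B N, blockCoeff β.1 x = ∑ β ∈ S, blockCoeff β x := by
    have : Fintype (Blw O B N) := Fintype.subtype S hS
    rw [finsum_eq_sum_of_fintype]
    exact (Finset.sum_subtype S hS (fun β => blockCoeff β x)).symm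
  rw [hfin]
  have hv : IsCl (fun t : N => ∑ β ∈ S, blockCoeff β t) := by
    intro g y
    exact Finset.sum_congr rfl fun β hβ => blockCoeff_cl (hirr β hβ) g y
  have hvO : ∀ t : N, (fun t : N => ∑ β ∈ S, blockCoeff β t) t ∈ O := fun t =>
    sum_mem' _ _ fun β hβ => blockCoeff_mem ((hS β).1 hβ).1 t
  have hOmv : ∀ θ : N → ℂ, IsIrr θ → Om (fun t : N => ∑ β ∈ S, blockCoeff β t) θ =
      if Idc O B N θ then 1 else 0 := by
    intro θ hθ
    rw [Om_sum S (fun β => blockCoeff β) θ]
    by_cases hI : Idc O B N θ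
    · have hb : Bl O θ ∈ S := by
        rw [hS]
        refine ⟨Bl_block hθ, fun χ hχ θ' hθ' w => ?_⟩
        exact Idc_congr hB (Bl_block hθ) (mem_Bl_self hθ) hθ' hI χ hχ w
      rw [if_pos hI, Finset.sum_eq_single (Bl O θ)]
      · rw [Om_blockCoeff Bl_irr hθ, if_pos (mem_Bl_self hθ)]
      · intro β hβ hne
        rw [Om_blockCoeff (hirr β hβ) hθ, if_neg]
        intro hmem
        apply hne
        obtain ⟨χ, -, rfl⟩ := ((hS β).1 hβ).1
        exact Bl_eq hmem
      · intro hn
        exact absurd hb hn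
    · rw [if_neg hI]
      refine Finset.sum_eq_zero fun β hβ => ?_
      rw [Om_blockCoeff (hirr β hβ) hθ, if_neg]
      intro hmem
      exact hI fun χ hχ w => ((hS β).1 hβ).2 χ hχ θ hmem w
  have hvi : ∀ a : N, red O (conv (fun t : N => ∑ β ∈ S, blockCoeff β t)
      (fun t : N => ∑ β ∈ S, blockCoeff β t) a) =
      red O ((fun t : N => ∑ β ∈ S, blockCoeff β t) a) := by
    have h1 : conv (fun t : N => ∑ β ∈ S, blockCoeff β t)
      (fun t : N => ∑ β ∈ S, blockCoeff β t) = fun t : N => ∑ β ∈ S, blockCoeff β t := by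
      refine eq_of_Om (hv.conv hv) hv fun θ hθ => ?_
      rw [Om_conv hθ hv hv, hOmv θ hθ]
      split_ifs <;> simp
    intro a
    rw [h1]
  have hf := rs_cl N hcl
  have hfO := rs_mem N hbO
  have hui := cut_idem (O := O) (E := D.subgroupOf N) (f := rs N (blockCoeff B)) hfO (by
    intro c hc
    have hc' : (c : G) ∈ Subgroup.centralizer (D : Set G) := (mem_cent_iff hle c).1 hc
    have h1 := red_conv_sum hp D hD hcl hcl hbO hbO (c : G) hc'
    rw [conv_idem hB] at h1
    show red O (blockCoeff B (c : G)) = _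
    rw [h1]
    symm
    refine Fintype.sum_bijective
      (fun x : Subgroup.centralizer ((D.subgroupOf N : Subgroup N) : Set N) =>
        (⟨((x : N) : G), (mem_cent_iff hle x.1).1 x.2⟩ : Subgroup.centralizer (D : Set G)))
      ⟨?_, ?_⟩ _ _ fun x => ?_
    · intro x y hxy
      have h2 : ((x : N) : G) = ((y : N) : G) :=
        congrArg (fun z : Subgroup.centralizer (D : Set G) => (z : G)) hxy
      exact Subtype.ext (Subtype.ext h2)
    · rintro ⟨x, hx⟩
      exact ⟨⟨⟨x, by rw [hN]; exact cent_le_norm D hx⟩, (mem_cent_iff hle _).2 hx⟩, rfl⟩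
    · rfl)
  have hxc : x ∈ Subgroup.centralizer ((D.subgroupOf N : Subgroup N) : Set N) := by
    rw [mem_cent_iff hle, Subgroup.mem_centralizer_iff]
    exact fun d hd => hx d hd
  have key := idem_uniq (O := O) (cut_cl (E := D.subgroupOf N) hf) hv (cut_mem hfO) hvO hui hvi
    (by
      intro θ hθ
      rw [cut_Om hp hDN hθ hf hfO, val hp D hD N hN hB hθ, hOmv θ hθ]
      split_ifs
      · exact red_one.symm
      · exact red_zero.symm) x
  rw [cut_of_mem hxc] at key
  exact (red_eq_iff (hbO _) (hvO x)).1 key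

theorem main2 (hp : (p : ℂ) ∈ O.nonunits) (D : Subgroup G) (hD : IsPGroup p D) (N : Subgroup G)
    (hN : N = Subgroup.normalizer (D : Set G)) {β : Set (N → ℂ)} (hβ : IsBlock O β) (x : N)
    (hx : blockCoeff β x ∉ O.nonunits) : ∀ d ∈ D, Commute d (x : G) := by
  have hle : D ≤ N := by rw [hN]; exact Subgroup.le_normalizer
  have hnorm : (D.subgroupOf N).Normal := by
    subst hN
    exact Subgroup.normal_in_normalizer
  have hDN : IsPGroup p (D.subgroupOf N) := hD.comap_subtype
  have hcl := blockCoeff_cl hβ.irr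
  have hbO := blockCoeff_mem hβ
  have hui := cut_idem (O := O) (E := D.subgroupOf N) (f := blockCoeff β) hbO (by
    intro c hc
    have h1 := red_conv_sum hp (D.subgroupOf N) hDN hcl hcl hbO hbO c hc
    rwa [conv_idem hβ] at h1)
  have key := idem_uniq (O := O) (cut_cl (E := D.subgroupOf N) hcl) hcl (cut_mem hbO) hbO hui
    (fun a => by rw [conv_idem hβ]) (fun θ hθ => cut_Om hp hDN hθ hcl hbO) x
  by_contra hcon
  have hxc : x ∉ Subgroup.centralizer ((D.subgroupOf N : Subgroup N) : Set N) := by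
    rw [mem_cent_iff hle, Subgroup.mem_centralizer_iff]
    exact fun h => hcon fun d hd => h d hd
  rw [cut_of_not hxc, red_zero] at key
  exact hx ((red_eq_zero_iff (hbO x)).1 key.symm)

end main

/-- **BRX** -/
theorem t_BRX : S_BRX := by
  intro G _ _ p _ O hp D hD
  exact ⟨fun B hB x hx => main1 hp D hD _ rfl hB x hx, fun β hβ x hx =>
    main2 hp D hD _ rfl hβ x hx⟩

end Pool.Agent.Q261.DC
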