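import Pool.Agent.Q17.DC.Stm3
import Pool.Agent.Q38.DC.EXI
import Pool.Agent.Q95.DC.MMZ

/-! Job FMT of project DC: Brauer's first main theorem. -/

set_option autoImplicit false
set_option linter.unusedSectionVars false

open scoped BigOperators Classical
open Pool.Agent.H254R3.IN Pool.Agent.Y63.KR Pool.Agent.Q17.TC Pool.Agent.Q17.DC
open Pool.Agent.Q176.DC Pool.Agent.Helper884 Pool.Agent.Q38.DC Pool.Agent.Q111.DC

noncomputable section

namespace Pool.Agent.Q261.DC

section gen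

variable {A : Type} [Group A] [Fintype A] {p : ℕ} [hpr : Fact p.Prime] {O : ValuationSubring ℂ}

/-- block idempotents are supported on the `p`-regular elements -/
lemma preg (hS : S_SECT) (hpO : (p : ℂ) ∈ O.nonunits) {B : Set (A → ℂ)} (hB : IsBlock O B) {x : A}
    (hbc : blockCoeff B x ∉ O.nonunits) : ¬ p ∣ orderOf x := by
  obtain ⟨a, b, k, hab, hcom, ha, hb, -, -⟩ := p_parts p x⁻¹
  by_cases ha1 : a = 1
  · rw [ha1, one_mul] at hab
    rw [← orderOf_inv, hab]
    exact hb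
  · exfalso
    apply hbc
    have h3 := hS A p O hpO B hB dl (by
      intro g y
      unfold dl
      have e : y * g * y⁻¹ = 1 ↔ g = 1 := conj_eq_one_iff
      simp only [e]) (by
      intro g
      unfold dl
      split_ifs
      · exact isIntegral_one
      · exact isIntegral_zero) a ⟨k, ha⟩ (by
      intro u _ hu
      unfold dl
      rw [if_neg]
      intro h
      apply ha1
      have h4 : a = u⁻¹ := eq_inv_of_mul_eq_one_left h
      have h5 : orderOf a = orderOf u := by rw [h4, orderOf_inv]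
      rw [← h5, ha] at hu
      have h6 : k = 0 := by
        by_contra h0
        exact hu (dvd_pow_self p h0)
      rw [h6, pow_zero, orderOf_eq_one_iff] at ha
      exact ha) b hcom hb
    have h7 : ∑ t : A, blockCoeff B t * dl (a * b * t) = blockCoeff B x := by
      rw [Finset.sum_eq_single x]
      · rw [← hab]
        unfold dl
        rw [inv_mul_cancel, if_pos rfl, mul_one]
      · intro t _ ht
        unfold dl
        rw [← hab, if_neg, mul_zero]
        intro h8
        exact ht (inv_mul_eq_one.mp h8).symm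
      · intro h
        exact absurd (Finset.mem_univ x) h
    rw [h7] at h3
    rw [h3]
    exact (nu_iff (O := O)).mpr ⟨O.zero_mem, red_zero⟩

lemma syl1 {D : Subgroup A} {x : A} (P : Sylow p (Subgroup.centralizer ({x} : Set A)))
    (hP : D = (P : Subgroup (Subgroup.centralizer ({x} : Set A))).map
        (Subgroup.centralizer ({x} : Set A)).subtype) :
    IsPGroup p D ∧ x ∈ Subgroup.centralizer (D : Set A) ∧ ¬ p ∣ kk D x := by
  have hle : D ≤ Subgroup.centralizer ({x} : Set A) := by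
    rw [hP]
    exact Subgroup.map_subtype_le _
  have hx : x ∈ Subgroup.centralizer (D : Set A) := by
    rw [Subgroup.mem_centralizer_iff]
    intro d hd
    exact (Subgroup.mem_centralizer_iff.1 (hle hd) x rfl).symm
  refine ⟨by rw [hP]; exact P.2.map _, hx, ?_⟩
  have h1 : Nat.card D = Nat.card (P : Subgroup (Subgroup.centralizer ({x} : Set A))) := by
    rw [hP]
    exact (Nat.card_congr ((P : Subgroup (Subgroup.centralizer ({x} : Set A))).equivMapOfInjective _
      (Subgroup.subtype_injective _)).toEquiv).symm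
  have h2 := Subgroup.card_mul_index (P : Subgroup (Subgroup.centralizer ({x} : Set A)))
  have h3 := kk_mul hx
  rw [← h2, h1, mul_comm] at h3
  have h4 := Nat.eq_of_mul_eq_mul_left (Nat.card_pos
    (α := (P : Subgroup (Subgroup.centralizer ({x} : Set A))))) h3
  rw [h4]
  exact P.not_dvd_index

lemma syl2 {D : Subgroup A} {x : A} (hD : IsPGroup p D)
    (hx : x ∈ Subgroup.centralizer (D : Set A)) (hk : ¬ p ∣ kk D x) :
    ∃ P : Sylow p (Subgroup.centralizer ({x} : Set A)),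
      D = (P : Subgroup (Subgroup.centralizer ({x} : Set A))).map
        (Subgroup.centralizer ({x} : Set A)).subtype := by
  have hle : D ≤ Subgroup.centralizer ({x} : Set A) := le_centralizer hx
  have h1 : (D.subgroupOf (Subgroup.centralizer ({x} : Set A))).index = kk D x := by
    have h1 := Subgroup.card_mul_index (D.subgroupOf (Subgroup.centralizer ({x} : Set A)))
    rw [Nat.card_congr (Subgroup.subgroupOfEquivOfLe hle).toEquiv, ← kk_mul hx, mul_comm] at h1
    exact Nat.eq_of_mul_eq_mul_right Nat.card_pos h1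
  have hp1 : IsPGroup p (D.subgroupOf (Subgroup.centralizer ({x} : Set A))) :=
    hD.of_equiv (Subgroup.subgroupOfEquivOfLe hle).symm
  refine ⟨hp1.toSylow (by rw [h1]; exact hk), ?_⟩
  rw [IsPGroup.toSylow_coe]
  exact (Subgroup.map_subgroupOf_eq_of_le hle).symm

lemma not_nu {x : ℂ} (hx : x ∈ O) : x ∉ O.nonunits ↔ red O x ≠ 0 := by
  rw [Ne, red_eq_zero_iff hx]

/-- `D` is a Sylow subgroup of the centraliser of the elements in the support of the idempotent -/
lemma mmx_kk (hM : S_MMX) (hpO : (p : ℂ) ∈ O.nonunits) {B : Set (A → ℂ)} (hB : IsBlock O B)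
    {D : Subgroup A} (hd : IsDefectGroup p O B D) {y : A} (hy : blockCoeff B y ∉ O.nonunits)
    (hyD : y ∈ Subgroup.centralizer (D : Set A)) : ¬ p ∣ kk D y := by
  obtain ⟨-, hM2⟩ := hM A p O hpO B hB
  have h1 := (hM2 D hd).1 y hy
  let R : Sylow p (Subgroup.centralizer ({y} : Set A)) := default
  have hRp : IsPGroup p ((R : Subgroup (Subgroup.centralizer ({y} : Set A))).map
        (Subgroup.centralizer ({y} : Set A)).subtype) := R.2.map _
  obtain ⟨g, hg⟩ := h1 _ hRp (by
    rintro r ⟨s, -, rfl⟩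
    have := Subgroup.mem_centralizer_iff.1 s.2 y rfl
    exact this.symm)
  obtain ⟨hDp, -, -⟩ : IsPGroup p D ∧ True ∧ True := by
    obtain ⟨x, ⟨P, hP⟩, -, -⟩ := hd
    exact ⟨(syl1 P hP).1, trivial, trivial⟩
  -- cardinalities
  have hcR : Nat.card ((R : Subgroup (Subgroup.centralizer ({y} : Set A))).map
        (Subgroup.centralizer ({y} : Set A)).subtype) =
      Nat.card (R : Subgroup (Subgroup.centralizer ({y} : Set A))) :=
    (Nat.card_congr ((R : Subgroup (Subgroup.centralizer ({y} : Set A))).equivMapOfInjective _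
      (Subgroup.subtype_injective _)).toEquiv).symm
  have hle1 : Nat.card (R : Subgroup (Subgroup.centralizer ({y} : Set A))) ≤ Nat.card D := by
    rw [← hcR]
    refine Nat.card_le_card_of_injective (fun r => (⟨g * r * g⁻¹, hg r r.2⟩ : D)) ?_
    intro r s hrs
    have h2 : g * (r : A) * g⁻¹ = g * (s : A) * g⁻¹ := congrArg Subtype.val hrs
    exact Subtype.ext (mul_left_cancel (mul_right_cancel h2))
  have hle : D ≤ Subgroup.centralizer ({y} : Set A) := le_centralizer hyD
  have hp1 : IsPGroup p (D.subgroupOf (Subgroup.centralizer ({y} : Set A))) :=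
    hDp.of_equiv (Subgroup.subgroupOfEquivOfLe hle).symm
  have hle2 : Nat.card D ∣ Nat.card (R : Subgroup (Subgroup.centralizer ({y} : Set A))) := by
    have h2 := hp1.card_eq_or_dvd
    rw [← Nat.card_congr (Subgroup.subgroupOfEquivOfLe hle).toEquiv]
    obtain ⟨n, hn⟩ := IsPGroup.iff_card.1 hp1
    rw [hn]
    refine R.pow_dvd_card_of_pow_dvd_card ?_
    rw [← hn]
    exact Subgroup.card_subgroup_dvd_card _
  have heq : Nat.card (R : Subgroup (Subgroup.centralizer ({y} : Set A))) = Nat.card D :=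
    le_antisymm hle1 (Nat.le_of_dvd Nat.card_pos hle2)
  have h2 := Subgroup.card_mul_index (R : Subgroup (Subgroup.centralizer ({y} : Set A)))
  have h3 := kk_mul hyD
  rw [← h2, heq, mul_comm] at h3
  have h4 := Nat.eq_of_mul_eq_mul_left Nat.card_pos h3
  rw [h4]
  exact R.not_dvd_index

lemma block_eq {B B' : Set (A → ℂ)} (hB : IsBlock O B) (hB' : IsBlock O B') {χ : A → ℂ}
    (h : χ ∈ B) (h' : χ ∈ B') : B = B' := by
  obtain ⟨χ₀, h0, rfl⟩ := hB
  obtain ⟨χ₁, h1, rfl⟩ := hB'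
  have e1 : Bl O χ₀ = Bl O χ := Bl_eq h
  have e2 : Bl O χ₁ = Bl O χ := Bl_eq h'
  exact e1.trans e2.symm

end gen

section main

variable {G : Type} [Group G] [Fintype G] {p : ℕ} [hpr : Fact p.Prime] {O : ValuationSubring ℂ}

lemma Blw_fin (B : Set (G → ℂ)) (N : Subgroup G) : Finite (Blw O B N) := by
  refine Finite.of_injective (fun b : Blw O B N => (⟨b.1, by
    obtain ⟨χ, hχ, h⟩ := b.2.1
    rw [h]
    exact Finset.mem_image.2 ⟨χ, mem_Irr.2 hχ, rfl⟩⟩ : {β // β ∈ Bls (A := N) O})) ?_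
  intro b c h
  exact Subtype.ext (congrArg (fun z : {β // β ∈ Bls (A := N) O} => z.1) h)

variable (hpO : (p : ℂ) ∈ O.nonunits) {D : Subgroup G} (hD : IsPGroup p D) {B : Set (G → ℂ)}
  (hB : IsBlock O B)

/-- the characters of a block of the normaliser which induces `B` -/
def IndB (O : ValuationSubring ℂ) (D : Subgroup G) (B : Set (G → ℂ)) (β : Set (NN D → ℂ)) : Prop :=
  ∀ χ ∈ B, ∀ θ ∈ β, ∀ x : G,
    omega χ x - ∑ᶠ y : {y : NN D // IsConj x (y : G)}, θ y / θ 1 ∈ O.nonunits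

include hpO hD hB in
lemma lam {β : Set (NN D → ℂ)} (hβ : IsBlock O β) (hi : IndB O D B β) {χ : G → ℂ} (hχ : χ ∈ B)
    {θ : NN D → ℂ} (hθ : θ ∈ β) {y : NN D} (hy : ¬ p ∣ orderOf y)
    (hyD : (y : G) ∈ Subgroup.centralizer (D : Set G)) (hk : ¬ p ∣ kk (DD D) y) :
    red O (omega χ (y : G)) = red O (omega θ y) := by
  refine lam_eq hpO hD (hB.irr χ hχ) (hβ.irr θ hθ) (hi χ hχ θ hθ) ⟨?_, hyD⟩ ?_
  · rw [Subgroup.orderOf_coe]
    exact hy
  · intro h
    apply hk
    exact ((kk_modEq hD y hyD).dvd_iff dvd_rfl).2 h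

include hpO hD hB in
/-- uniqueness of the Brauer correspondent -/
lemma uniq (hM : S_MMX) (hR : S_BRX) (hS : S_SECT) {β β' : Set (NN D → ℂ)}
    (hβ : IsBlock O β) (hdβ : IsDefectGroup p O β (DD D)) (hi : IndB O D B β)
    (hβ' : IsBlock O β') (hdβ' : IsDefectGroup p O β' (DD D)) (hi' : IndB O D B β') :
    β = β' := by
  obtain ⟨χ, hχ⟩ := hB.nonempty
  obtain ⟨θ, hθ⟩ := hβ.nonempty
  obtain ⟨θ', hθ'⟩ := hβ'.nonempty
  have hcl := blockCoeff_cl hβ.irr
  have hbO := blockCoeff_mem hβ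
  have key : ∀ y : NN D, blockCoeff β y ∉ O.nonunits →
      red O (omega θ y) = red O (omega θ' y) := by
    intro y hy
    have hyD : (y : G) ∈ Subgroup.centralizer (D : Set G) := by
      rw [Subgroup.mem_centralizer_iff]
      exact fun d hd => ((hR G p O hpO D hD).2 β hβ y hy d hd)
    have hyr := preg hS hpO hβ hy
    have hk := mmx_kk hM hpO hβ hdβ hy ((mem_cent_DD y).2 hyD)
    rw [← lam hpO hD hB hβ hi hχ hθ hyr hyD hk, ← lam hpO hD hB hβ' hi' hχ hθ' hyr hyD hk]
  have h1 : red O (Om (blockCoeff β) θ') = red O (Om (blockCoeff β) θ) := by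
    rw [(red_Om (hβ'.irr θ' hθ') hcl hbO).2, (red_Om (hβ.irr θ hθ) hcl hbO).2]
    refine Finset.sum_congr rfl fun K _ => ?_
    by_cases h : blockCoeff β (rep K) ∈ O.nonunits
    · rw [(red_eq_zero_iff (hbO _)).2 h, zero_mul, zero_mul]
    · rw [key _ h]
  rw [Om_blockCoeff hβ.irr (hβ'.irr θ' hθ'), Om_blockCoeff hβ.irr (hβ.irr θ hθ), if_pos hθ,
    red_one] at h1
  have h2 : θ' ∈ β := by
    by_contra h
    rw [if_neg h, red_zero] at h1
    exact zero_ne_one h1
  exact block_eq hβ hβ' h2 hθ'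

include hpO hD hB in
/-- a block below `B` which does not vanish at an element with the Sylow property -/
lemma defect {β : Set (NN D → ℂ)} (hβ : IsBlock O β) (hi : IndB O D B β) {y : NN D}
    (hy : ¬ p ∣ orderOf y) (hyD : (y : G) ∈ Subgroup.centralizer (D : Set G))
    (hk : ¬ p ∣ kk (DD D) y) (hom : ∀ χ ∈ B, omega χ (y : G) ∉ O.nonunits)
    (hb : blockCoeff β y ∉ O.nonunits) : IsDefectGroup p O β (DD D) := by
  obtain ⟨χ, hχ⟩ := hB.nonempty
  refine ⟨y, syl2 (pgroup_DD hD) ((mem_cent_DD y).2 hyD) hk, fun θ hθ => ?_, hb⟩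
  rw [not_nu ((hβ.irr θ hθ).omega_mem O y), ← lam hpO hD hB hβ hi hχ hθ hy hyD hk,
    ← not_nu ((hB.irr χ hχ).omega_mem O _)]
  exact hom χ hχ

include hpO hD hB in
lemma brx_sum (hR : S_BRX) (y : NN D) (hyD : (y : G) ∈ Subgroup.centralizer (D : Set G)) :
    ∃ _ : Fintype (Blw O B (NN D)), red O (blockCoeff B (y : G)) =
      ∑ b : Blw O B (NN D), red O (blockCoeff b.1 y) := by
  have hfin := Blw_fin (O := O) B (NN D)
  let hft : Fintype (Blw O B (NN D)) := Fintype.ofFinite _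
  refine ⟨hft, ?_⟩
  have h1 := (hR G p O hpO D hD).1 B hB y (fun d hd =>
    Subgroup.mem_centralizer_iff.1 hyD d hd)
  obtain ⟨h2, h3⟩ := red_congr (blockCoeff_mem hB (y : G)) h1
  rw [h3, finsum_eq_sum_of_fintype, red_sum _ _ fun b _ => blockCoeff_mem b.2.1 y]

end main

/-- **FMT**: Brauer's first main theorem -/
theorem t_FMT : S_MMX → S_BRX → S_SECT → S_FMT := by
  intro hM hR hS G _ _ p _ O hpO D hD B hB
  refine ⟨?_, ?_, ?_⟩
  · intro hdef
    obtain ⟨x, ⟨P, hP⟩, hom, hbc⟩ := hdef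
    obtain ⟨-, hxD, hk⟩ := syl1 P hP
    have hxr := preg hS hpO hB hbc
    have hxN : x ∈ NN D := cent_le_NN hxD
    obtain ⟨y, hy⟩ : ∃ y : NN D, (y : G) = x := ⟨⟨x, hxN⟩, rfl⟩
    subst hy
    obtain ⟨hft, hsum⟩ := brx_sum hpO hD hB hR y hxD
    have hne : ∑ b : Blw O B (NN D), red O (blockCoeff b.1 y) ≠ 0 := by
      rw [← hsum]
      exact (not_nu (blockCoeff_mem hB _)).1 hbc
    obtain ⟨b, -, hb⟩ := Finset.exists_ne_zero_of_sum_ne_zero hne
    have hb' : blockCoeff b.1 y ∉ O.nonunits := (not_nu (blockCoeff_mem b.2.1 _)).2 hb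
    have hkD : ¬ p ∣ kk (DD D) y := fun h => hk (((kk_modEq hD y hxD).dvd_iff dvd_rfl).1 h)
    have hyr : ¬ p ∣ orderOf y := by
      rw [← Subgroup.orderOf_coe]
      exact hxr
    exact ⟨b.1, b.2.1, defect hpO hD hB b.2.1 b.2.2 hyr hxD hkD hom hb', b.2.2⟩
  · rintro β ⟨hβ, hdβ, hi⟩
    obtain ⟨y, ⟨P, hP⟩, homβ, hbcβ⟩ := id hdβ
    obtain ⟨-, hyD', hk⟩ := syl1 P hP
    have hyD := (mem_cent_DD y).1 hyD'
    have hyr := preg hS hpO hβ hbcβ
    obtain ⟨θ, hθ⟩ := hβ.nonempty
    have hom : ∀ χ ∈ B, omega χ (y : G) ∉ O.nonunits := by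
      intro χ hχ
      rw [not_nu ((hB.irr χ hχ).omega_mem O _), lam hpO hD hB hβ hi hχ hθ hyr hyD hk,
        ← not_nu ((hβ.irr θ hθ).omega_mem O _)]
      exact homβ θ hθ
    have hkG : ¬ p ∣ kk D (y : G) := fun h => hk (((kk_modEq hD y hyD).dvd_iff dvd_rfl).2 h)
    refine ⟨y, syl2 hD hyD hkG, hom, ?_⟩
    obtain ⟨hft, hsum⟩ := brx_sum hpO hD hB hR y hyD
    obtain ⟨b₀, hb₀⟩ : ∃ b₀ : Blw O B (NN D), b₀.1 = β := ⟨⟨β, hβ, hi⟩, rfl⟩
    have hs : ∑ b : Blw O B (NN D), red O (blockCoeff b.1 y) = red O (blockCoeff b₀.1 y) := by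
      refine Finset.sum_eq_single b₀ ?_ ?_
      · intro b _ hne
        by_contra h
        apply hne
        have hb' : blockCoeff b.1 y ∉ O.nonunits := (not_nu (blockCoeff_mem b.2.1 _)).2 h
        have h3 : b.1 = β := uniq hpO hD hB hM hR hS b.2.1
          (defect hpO hD hB b.2.1 b.2.2 hyr hyD hk hom hb') b.2.2 hβ hdβ hi
        exact Subtype.ext (h3.trans hb₀.symm)
      · intro h
        exact absurd (Finset.mem_univ _) h
    rw [not_nu (blockCoeff_mem hB _), hsum, hs, hb₀]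
    exact (not_nu (blockCoeff_mem hβ _)).1 hbcβ
  · rintro β β' ⟨hβ, hdβ, hi⟩ ⟨hβ', hdβ', hi'⟩
    exact uniq hpO hD hB hM hR hS hβ hdβ hi hβ' hdβ' hi'

end Pool.Agent.Q261.DC
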