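import Mathlib
import Pool.Agent.Q261.DC.Cmp

/-!
# Project DC, job SPA: the number of characters in a block and the sections
-/

set_option autoImplicit false

open scoped BigOperators Classical
open Pool.Agent.H254R3.IN Pool.Agent.Helper884 Pool.Agent.Q17.DC Pool.Agent.Q17.TC
open Pool.Agent.Q111.DC

noncomputable section

namespace Pool.Agent.Q261.DC

theorem t_SPA : S_SECT → S_SPA := by
  intro sect G _ _ p _ O hp B hB
  haveI : Fintype (Quotient (IsConj.setoid G)) := Fintype.ofFinite _
  rw [finsum_eq_sum_of_fintype, ← finrank_block hB.irr, ← Finset.sum_filter]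
  set s : Finset (Quotient (IsConj.setoid G)) :=
    Finset.univ.filter fun c => ∃ k, orderOf c.out = p ^ k with hs
  have hout : ∀ c c' : Quotient (IsConj.setoid G), IsConj c.out c'.out → c = c' := by
    intro c c' h
    rw [← Quotient.out_eq c, ← Quotient.out_eq c']
    exact Quotient.sound h
  have hsum : ∀ c ∈ s, dS p c.out B =
      Module.finrank ℂ ((Submodule.span ℂ B).map (rS p c.out)) := fun c _ => dS_eq p c.out B
  have h1 : (Submodule.span ℂ B) = ⨆ c ∈ s, (Submodule.span ℂ B).map (rS p c.out) := by
    refine le_antisymm ?_ (iSup₂_le fun c _ => rS_stab sect hp hB c.out)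
    refine Submodule.span_le.2 fun χ hχ => ?_
    have h2 : χ = ∑ c ∈ s, rS p c.out χ := by
      funext x
      rw [Finset.sum_apply]
      obtain ⟨a, b, k, hg, hc, ha, hb, -, -⟩ := p_parts p x
      have hca : IsConj (⟦a⟧ : Quotient (IsConj.setoid G)).out a :=
        Quotient.exact (Quotient.out_eq (⟦a⟧ : Quotient (IsConj.setoid G)))
      rw [Finset.sum_eq_single (⟦a⟧ : Quotient (IsConj.setoid G))]
      · rw [rS_apply, hg, if_pos ((InS_parts hc ⟨k, ha⟩ hb).2 hca)]
      · intro c _ hne
        rw [rS_apply, hg, if_neg]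
        intro h
        exact hne (hout _ _ (((InS_parts hc ⟨k, ha⟩ hb).1 h).trans hca.symm))
      · intro h
        exfalso
        apply h
        rw [hs, Finset.mem_filter]
        refine ⟨Finset.mem_univ _, k, ?_⟩
        obtain ⟨y, hy⟩ := isConj_iff.1 hca
        have e3 : orderOf (y * (⟦a⟧ : Quotient (IsConj.setoid G)).out * y⁻¹) =
            orderOf (⟦a⟧ : Quotient (IsConj.setoid G)).out :=
          orderOf_injective (MulAut.conj y).toMonoidHom (MulAut.conj y).injective _
        rw [← e3, hy, ha]
    rw [SetLike.mem_coe, h2]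
    refine Submodule.sum_mem _ fun c hc => ?_
    have h3 : (Submodule.span ℂ B).map (rS p c.out) ≤
        ⨆ c ∈ s, (Submodule.span ℂ B).map (rS p c.out) := le_iSup₂_of_le c hc le_rfl
    exact h3 (Submodule.mem_map_of_mem (Submodule.subset_span hχ))
  rw [Finset.sum_congr rfl hsum, ← finrank_sup_proj s
    (fun c => (Submodule.span ℂ B).map (rS p c.out)) (fun c => rS p c.out) ?_ ?_, ← h1]
  · rintro c hc w hw
    obtain ⟨f, -, rfl⟩ := (Submodule.mem_map).1 hw
    exact rS_rS p c.out f
  · rintro c hc c' hc' hne w hw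
    obtain ⟨f, -, rfl⟩ := (Submodule.mem_map).1 hw
    funext x
    rw [rS_apply, rS_apply]
    by_cases h1 : InS p c.out x
    · rw [if_pos h1, if_neg]
      · rfl
      · intro h2
        obtain ⟨z, t, h3, h4, h5, h6, h7⟩ := h1
        rw [h3] at h2
        exact hne (hout _ _ (h7.trans ((InS_parts h4 h5 h6).1 h2).symm))
    · rw [if_neg h1]
      rfl

end Pool.Agent.Q261.DC
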