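import Mathlib
import Pool.Agent.Q261.DC.Cmp

/-!
# Project DC, job SPB: the contribution of a section
-/

set_option autoImplicit false

open scoped BigOperators Classical
open Pool.Agent.H254R3.IN Pool.Agent.Helper884 Pool.Agent.Q17.DC Pool.Agent.Q17.TC
open Pool.Agent.Q111.DC

noncomputable section

namespace Pool.Agent.Q261.DC

variable {A G : Type} [Group A] [Fintype A] [Group G] [Fintype G]

/-- transfer of functions to the centraliser -/
def Rz (p : ℕ) (j : A →* G) (z : A) : (G → ℂ) →ₗ[ℂ] (A → ℂ) where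
  toFun f s := if p ∣ orderOf s then 0 else f (j (z * s))
  map_add' f h := by
    funext x
    simp only [Pi.add_apply]
    split_ifs
    · rw [add_zero]
    · rfl
  map_smul' c f := by
    funext x
    simp only [Pi.smul_apply, RingHom.id_apply]
    split_ifs
    · rw [smul_zero]
    · rfl

omit [Fintype A] [Fintype G] in
lemma Rz_apply (p : ℕ) (j : A →* G) (z : A) (f : G → ℂ) (s : A) :
    Rz p j z f s = if p ∣ orderOf s then 0 else f (j (z * s)) := rfl

omit [Fintype A] [Fintype G] in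
lemma z_central {j : A →* G} {z : A} (hj : Function.Injective j)
    (hz : ∀ g : G, Commute (j z) g ↔ g ∈ j.range) (a : A) : Commute z a := by
  have h1 : Commute (j z) (j a) := (hz (j a)).2 ⟨a, rfl⟩
  apply hj
  rw [map_mul, map_mul]
  exact h1

omit [Fintype A] in
lemma InS_j {p : ℕ} [Fact p.Prime] {j : A →* G} {z : A} (hj : Function.Injective j)
    (hz : ∀ g : G, Commute (j z) g ↔ g ∈ j.range) (hzp : ∃ k, orderOf z = p ^ k) {s : A}
    (hs : ¬ p ∣ orderOf s) : InS p (j z) (j (z * s)) := by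
  refine ⟨j z, j s, map_mul _ _ _, (hz (j s)).2 ⟨s, rfl⟩, ?_, ?_, IsConj.refl _⟩
  · rw [orderOf_injective j hj]
    exact hzp
  · rw [orderOf_injective j hj]
    exact hs

omit [Fintype A] [Fintype G] in
/-- the elements of the section -/
lemma InS_ex {p : ℕ} [Fact p.Prime] {j : A →* G} {z : A} (hj : Function.Injective j)
    (hz : ∀ g : G, Commute (j z) g ↔ g ∈ j.range) {x : G} (h : InS p (j z) x) :
    ∃ s : A, ¬ p ∣ orderOf s ∧ IsConj (j (z * s)) x := by
  obtain ⟨a, b, rfl, hc, -, hb, hcon⟩ := h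
  obtain ⟨g, hg⟩ := isConj_iff.1 hcon
  have h1 : Commute (j z) (g⁻¹ * b * g) := by
    show j z * (g⁻¹ * b * g) = g⁻¹ * b * g * j z
    have e1 : j z = g⁻¹ * a * g := by
      rw [← hg]
      group
    rw [e1]
    have e2 : g⁻¹ * a * g * (g⁻¹ * b * g) = g⁻¹ * (a * b) * g := by group
    have e3 : g⁻¹ * b * g * (g⁻¹ * a * g) = g⁻¹ * (b * a) * g := by group
    rw [e2, e3, hc.eq]
  obtain ⟨s, hs⟩ := (hz _).1 h1
  refine ⟨s, ?_, isConj_iff.2 ⟨g, ?_⟩⟩
  · have e4 : orderOf s = orderOf b := by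
      rw [← orderOf_injective j hj s, hs]
      have e5 : orderOf (g⁻¹ * b * g⁻¹⁻¹) = orderOf b :=
        orderOf_injective (MulAut.conj g⁻¹).toMonoidHom (MulAut.conj g⁻¹).injective b
      rwa [inv_inv] at e5
    rw [e4]
    exact hb
  · rw [map_mul, hs]
    have e6 : g * (j z * (g⁻¹ * b * g)) * g⁻¹ = (g * j z * g⁻¹) * b := by group
    rw [e6, hg]

omit [Fintype A] in
lemma Rz_zero {p : ℕ} [Fact p.Prime] {j : A →* G} {z : A} (hj : Function.Injective j)
    (hz : ∀ g : G, Commute (j z) g ↔ g ∈ j.range) {f : G → ℂ} (hcl : IsCl f)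
    (hf : rS p (j z) f = f) (h0 : Rz p j z f = 0) : f = 0 := by
  funext x
  by_cases h : InS p (j z) x
  · obtain ⟨s, hs, hc⟩ := InS_ex hj hz h
    have h1 := congrFun h0 s
    rw [Rz_apply, if_neg hs] at h1
    rw [← hcl.isConj hc, h1]
    rfl
  · rw [← hf, rS_apply, if_neg h]
    rfl

/-- conjugate elements of the section over the same `p`-part -/
lemma conj_s {p : ℕ} [Fact p.Prime] {j : A →* G} {z : A} (hj : Function.Injective j)
    (hz : ∀ g : G, Commute (j z) g ↔ g ∈ j.range) (hzp : ∃ k, orderOf z = p ^ k) {s s' : A}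
    (hs : ¬ p ∣ orderOf s) (hs' : ¬ p ∣ orderOf s') (h : IsConj (j (z * s)) (j (z * s'))) :
    IsConj s s' := by
  obtain ⟨g, hg⟩ := isConj_iff.1 h
  obtain ⟨k, hk⟩ := hzp
  have e1 : (g * j z * g⁻¹) * (g * j s * g⁻¹) = j z * j s' := by
    rw [← map_mul, ← hg, map_mul]
    group
  have hjz : orderOf (j z) = p ^ k := by rw [orderOf_injective j hj, hk]
  have e2 : g * j z * g⁻¹ = j z := by
    refine part_unique (p := p) e1 ?_ ((hz _).2 ⟨s', rfl⟩) ⟨k, ?_⟩ ⟨k, hjz⟩ ?_ ?_
    · have hc : Commute (j z) (j s) := (hz _).2 ⟨s, rfl⟩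
      show g * j z * g⁻¹ * (g * j s * g⁻¹) = g * j s * g⁻¹ * (g * j z * g⁻¹)
      have e3 : g * j z * g⁻¹ * (g * j s * g⁻¹) = g * (j z * j s) * g⁻¹ := by group
      have e4 : g * j s * g⁻¹ * (g * j z * g⁻¹) = g * (j s * j z) * g⁻¹ := by group
      rw [e3, e4, hc.eq]
    · rw [← hjz]
      exact orderOf_injective (MulAut.conj g).toMonoidHom (MulAut.conj g).injective _
    · have e5 : orderOf (g * j s * g⁻¹) = orderOf (j s) :=
        orderOf_injective (MulAut.conj g).toMonoidHom (MulAut.conj g).injective _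
      rw [e5, orderOf_injective j hj]
      exact hs
    · rw [orderOf_injective j hj]
      exact hs'
  have e6 : Commute (j z) g := by
    show j z * g = g * j z
    calc j z * g = (g * j z * g⁻¹) * g := by rw [e2]
      _ = g * j z := by group
  obtain ⟨a, ha⟩ := (hz _).1 e6
  refine isConj_iff.2 ⟨a, hj ?_⟩
  rw [map_mul, map_mul, map_inv, ha]
  have e7 : j z * (g * j s * g⁻¹) = j z * j s' := by
    rw [← e1, e2]
  exact mul_left_cancel e7

lemma Rz_surj {p : ℕ} [Fact p.Prime] {j : A →* G} {z : A} (hj : Function.Injective j)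
    (hz : ∀ g : G, Commute (j z) g ↔ g ∈ j.range) (hzp : ∃ k, orderOf z = p ^ k) {w : A → ℂ}
    (hw : IsCl w) (hw0 : ∀ s, p ∣ orderOf s → w s = 0) :
    ∃ f : G → ℂ, IsCl f ∧ rS p (j z) f = f ∧ Rz p j z f = w := by
  let f : G → ℂ := fun x =>
    if h : ∃ s, ¬ p ∣ orderOf s ∧ IsConj (j (z * s)) x then w h.choose else 0
  have hf1 : ∀ x s, ¬ p ∣ orderOf s → IsConj (j (z * s)) x → f x = w s := by
    intro x s hs hc
    have hex : ∃ s, ¬ p ∣ orderOf s ∧ IsConj (j (z * s)) x := ⟨s, hs, hc⟩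
    have e : f x = w hex.choose := dif_pos hex
    rw [e]
    obtain ⟨h1, h2⟩ := hex.choose_spec
    exact hw.isConj (conj_s hj hz hzp h1 hs (h2.trans hc.symm))
  have hf0 : ∀ x, (¬ ∃ s, ¬ p ∣ orderOf s ∧ IsConj (j (z * s)) x) → f x = 0 :=
    fun x h => dif_neg h
  refine ⟨f, ?_, ?_, ?_⟩
  · intro g y
    have hgy : IsConj g (y * g * y⁻¹) := isConj_iff.2 ⟨y, rfl⟩
    by_cases h : ∃ s, ¬ p ∣ orderOf s ∧ IsConj (j (z * s)) g
    · obtain ⟨s, hs, hc⟩ := h
      rw [hf1 _ s hs hc, hf1 _ s hs (hc.trans hgy)]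
    · rw [hf0 _ h, hf0]
      rintro ⟨s, hs, hc⟩
      exact h ⟨s, hs, hc.trans hgy.symm⟩
  · funext x
    rw [rS_apply]
    by_cases h : InS p (j z) x
    · rw [if_pos h]
    · rw [if_neg h, hf0]
      rintro ⟨s, hs, hc⟩
      obtain ⟨y, rfl⟩ := isConj_iff.1 hc
      exact h (InS_conj y (InS_j hj hz hzp hs))
  · funext s
    rw [Rz_apply]
    by_cases h : p ∣ orderOf s
    · rw [if_pos h, hw0 s h]
    · rw [if_neg h]
      exact hf1 _ s h (IsConj.refl _)

lemma rS_one {p : ℕ} [Fact p.Prime] (f : A → ℂ) (s : A) :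
    rS p 1 f s = if p ∣ orderOf s then 0 else f s := by
  rw [rS_apply]
  by_cases h : p ∣ orderOf s
  · rw [if_pos h, if_neg (fun h' => (InS_one s).1 h' h)]
  · rw [if_neg h, if_pos ((InS_one s).2 h)]

/-- the blocks of `A` which induce `B` -/
def JB (O : ValuationSubring ℂ) (j : A →* G) (B : Set (G → ℂ)) : Finset (Set (A → ℂ)) :=
  (Bls O).filter fun β => ∀ χ ∈ B, ∀ φ ∈ β, ∀ x : G,
    omega χ x - ∑ᶠ v : {v : A // IsConj x (j v)}, φ v / φ 1 ∈ O.nonunits

lemma mem_JB {O : ValuationSubring ℂ} {j : A →* G} {B : Set (G → ℂ)} {β : Set (A → ℂ)} :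
    β ∈ JB O j B ↔ IsBlock O β ∧ ∀ χ ∈ B, ∀ φ ∈ β, ∀ x : G,
      omega χ x - ∑ᶠ v : {v : A // IsConj x (j v)}, φ v / φ 1 ∈ O.nonunits := by
  unfold JB
  rw [Finset.mem_filter, mem_Bls]

/-- the transfer of a member of `B` -/
lemma Rz_mem (sect : S_SECT) (smt : S_SMT) {p : ℕ} [Fact p.Prime] {O : ValuationSubring ℂ}
    (hp : (p : ℂ) ∈ O.nonunits) {j : A →* G} {z : A} (hj : Function.Injective j)
    (hz : ∀ g : G, Commute (j z) g ↔ g ∈ j.range) (hzp : ∃ k, orderOf z = p ^ k)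
    {B : Set (G → ℂ)} (hB : IsBlock O B) {χ : G → ℂ} (hχ : χ ∈ B) :
    Rz p j z χ ∈ ⨆ β ∈ JB O j B, (Submodule.span ℂ β).map (rS p 1) := by
  have hirr := hB.irr χ hχ
  have hzc := z_central hj hz
  have hordc : ∀ g y : A, orderOf (y * g * y⁻¹) = orderOf g := fun g y =>
    orderOf_injective (MulAut.conj y).toMonoidHom (MulAut.conj y).injective g
  set h : A → ℂ := fun t => χ (j (z * t)) with hh
  have hcl : IsCl h := by
    intro g y
    rw [hh]
    show χ (j (z * (y * g * y⁻¹))) = χ (j (z * g))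
    have e1 : z * (y * g * y⁻¹) = y * (z * g) * y⁻¹ := by
      have e2 := (hzc y).eq
      calc z * (y * g * y⁻¹) = (z * y) * g * y⁻¹ := by group
        _ = (y * z) * g * y⁻¹ := by rw [e2]
        _ = y * (z * g) * y⁻¹ := by group
    rw [e1, map_mul, map_mul, map_inv]
    exact hirr.conj _ _
  set h₀ := Rz p j z χ with hh₀
  have hh₀' : ∀ s, h₀ s = if p ∣ orderOf s then 0 else h s := fun s => rfl
  have hcl₀ : IsCl h₀ := by
    intro g y
    rw [hh₀', hh₀', hordc, hcl]
  have hint : ∀ x, IsIntegral ℤ (h x) := fun x => hirr.isIntegral _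
  have hint₀ : ∀ x, IsIntegral ℤ (h₀ x) := by
    intro x
    rw [hh₀']
    split_ifs
    · exact isIntegral_zero
    · exact hint x
  have key : ∀ β ∈ Bls (A := A) O, β ∉ JB O j B → cmpL β h₀ = 0 := by
    intro β hβ hnot
    have hβ' := mem_Bls.1 hβ
    rw [mem_JB] at hnot
    push Not at hnot
    obtain ⟨χ', hχ', φ, hφ, x, hx⟩ := hnot hβ'
    have hx' : omega χ x - ∑ᶠ v : {v : A // IsConj x (j v)}, φ v / φ 1 ∉ O.nonunits := by
      intro hcon
      apply hx
      have h1 : omega χ' x - omega χ x ∈ O.nonunits := by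
        have h2 := hB.red_eq hχ' hχ x
        exact (red_eq_iff ((hB.irr χ' hχ').omega_mem O x) (hirr.omega_mem O x)).1 h2
      have h3 : omega χ' x - ∑ᶠ v : {v : A // IsConj x (j v)}, φ v / φ 1 =
          (omega χ' x - omega χ x) +
            (omega χ x - ∑ᶠ v : {v : A // IsConj x (j v)}, φ v / φ 1) := by ring
      rw [h3]
      exact O.nonunits.add_mem h1 hcon
    funext g
    by_cases hg : p ∣ orderOf g
    · obtain ⟨a, b, k, hgab, hc, ha, hb, -, -⟩ := p_parts p g
      have h1 := sect A p O hp β hβ' h₀ hcl₀ hint₀ a ⟨k, ha⟩ (fun y hy hpy => by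
        rw [hh₀', if_pos]
        by_contra hcon
        have h2 : (1 : A) * (a * y) = a * y := one_mul _
        have h3 : (1 : A) = a := part_unique (p := p) h2 (Commute.one_left _) hy
          ⟨0, by rw [orderOf_one, pow_zero]⟩ ⟨k, ha⟩ hcon hpy
        rw [← h3, one_mul] at hgab
        rw [hgab] at hg
        exact hb hg) b hc hb
      rw [cmpL_apply, hgab, h1]
      rfl
    · have h1 := smt A G j p O hj hp z hzp hz β hβ' φ hφ χ hirr x hx' g hg
      have h2 := sect A p O hp β hβ' (fun t => h t - h₀ t)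
        (fun g y => by
          show h (y * g * y⁻¹) - h₀ (y * g * y⁻¹) = h g - h₀ g
          rw [hcl, hcl₀])
        (fun x => (hint x).sub (hint₀ x)) 1 ⟨0, by rw [orderOf_one, pow_zero]⟩
        (fun y _ hpy => by
          show h (1 * y) - h₀ (1 * y) = 0
          rw [one_mul, hh₀', if_neg hpy, sub_self]) g (Commute.one_left _) hg
      have h3 : ∑ t : A, blockCoeff β t * (h (1 * g * t) - h₀ (1 * g * t)) =
          ∑ t : A, blockCoeff β t * χ (j (z * g * t)) - cmpL β h₀ g := by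
        rw [cmpL_apply, ← Finset.sum_sub_distrib]
        refine Finset.sum_congr rfl fun t _ => ?_
        rw [one_mul, mul_sub]
        congr 2
        show χ (j (z * (g * t))) = _
        rw [mul_assoc]
      rw [h3, h1, zero_sub, neg_eq_zero] at h2
      rw [h2]
      rfl
  have h4 : h₀ = ∑ β ∈ JB O j B, cmpL β h₀ := by
    conv_lhs => rw [← sum_cmp (A := A) O h₀]
    unfold JB
    rw [Finset.sum_filter]
    refine Finset.sum_congr rfl fun β hβ => ?_
    split_ifs with hcon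
    · rfl
    · exact key β hβ fun hm => hcon (mem_JB.1 hm).2
  have h5 : h₀ = rS p 1 h₀ := by
    funext s
    rw [rS_one, hh₀']
    split_ifs
    · rfl
    · rfl
  rw [h5, h4, map_sum]
  refine Submodule.sum_mem _ fun β hβ => ?_
  have h6 : (Submodule.span ℂ β).map (rS p 1) ≤
      ⨆ β ∈ JB O j B, (Submodule.span ℂ β).map (rS p 1) := le_iSup₂_of_le β hβ le_rfl
  exact h6 (Submodule.mem_map_of_mem (cmpL_mem (mem_JB.1 hβ).1.irr (cl_mem hcl₀)))

/-- the total contribution of a section -/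
lemma finrank_sec (sect : S_SECT) {p : ℕ} [Fact p.Prime] {O : ValuationSubring ℂ}
    (hp : (p : ℂ) ∈ O.nonunits) (u : A) (s : Finset (Set (A → ℂ))) (hs : s ⊆ Bls O) :
    Module.finrank ℂ (⨆ β ∈ s, (Submodule.span ℂ β).map (rS p u) : Submodule ℂ (A → ℂ)) =
      ∑ β ∈ s, dS p u β := by
  have h0 : ∑ β ∈ s, dS p u β =
      ∑ β ∈ s, Module.finrank ℂ ((Submodule.span ℂ β).map (rS p u)) :=
    Finset.sum_congr rfl fun β _ => dS_eq p u β
  rw [h0]
  refine finrank_sup_proj s _ (fun β => cmpL β) ?_ ?_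
  · intro β hβ w hw
    exact cmpL_self (mem_Bls.1 (hs hβ)).irr (rS_stab sect hp (mem_Bls.1 (hs hβ)) u hw)
  · intro β hβ β' hβ' hne w hw
    exact cmpL_other (mem_Bls.1 (hs hβ)).irr (mem_Bls.1 (hs hβ')).irr
      (block_disj (mem_Bls.1 (hs hβ)) (mem_Bls.1 (hs hβ')) hne)
      (rS_stab sect hp (mem_Bls.1 (hs hβ')) u hw)

lemma CF_map (O : ValuationSubring ℂ) (p : ℕ) (u : A) : (CF A).map (rS p u) =
    ⨆ β ∈ Bls (A := A) O, (Submodule.span ℂ β).map (rS p u) := by
  rw [CF_eq O]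
  simp only [Submodule.map_iSup]

theorem t_SPB : S_SECT → S_SMT → S_SPB := by
  intro sect smt A G _ _ _ _ j p _ O hj hp z hzp hz
  -- the inequality for each block
  have hle : ∀ B ∈ Bls (A := G) O, dS p (j z) B ≤ ∑ β ∈ JB O j B, dS p (1 : A) β := by
    intro B hB
    have hB' := mem_Bls.1 hB
    rw [← finrank_sec sect hp 1 (JB O j B) (Finset.filter_subset _ _), dS_eq]
    set W := (Submodule.span ℂ B).map (rS p (j z)) with hW
    have hWcl : ∀ f ∈ W, IsCl f ∧ rS p (j z) f = f := by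
      intro f hf
      obtain ⟨f', hf', rfl⟩ := Submodule.mem_map.1 hf
      refine ⟨rS_cl (CF_cl ?_), rS_rS _ _ _⟩
      exact Submodule.span_mono (fun χ hχ => hB'.irr χ hχ) hf'
    have hinj : Function.Injective ((Rz p j z).domRestrict W) := by
      rw [← LinearMap.ker_eq_bot, LinearMap.ker_eq_bot']
      rintro ⟨f, hf⟩ h0
      exact Subtype.ext (Rz_zero hj hz (hWcl f hf).1 (hWcl f hf).2 h0)
    rw [← LinearMap.finrank_range_of_inj hinj]
    refine Submodule.finrank_mono ?_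
    rintro _ ⟨⟨f, hf⟩, rfl⟩
    show Rz p j z f ∈ _
    obtain ⟨f', hf', rfl⟩ := Submodule.mem_map.1 hf
    have h1 : Submodule.span ℂ B ≤ (⨆ β ∈ JB O j B, (Submodule.span ℂ β).map (rS p 1)).comap
        ((Rz p j z).comp (rS p (j z))) := by
      refine Submodule.span_le.2 fun χ hχ => ?_
      rw [SetLike.mem_coe, Submodule.mem_comap, LinearMap.comp_apply]
      have h2 : Rz p j z (rS p (j z) χ) = Rz p j z χ := by
        funext s
        rw [Rz_apply, Rz_apply]
        by_cases hs : p ∣ orderOf s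
        · rw [if_pos hs, if_pos hs]
        · rw [if_neg hs, if_neg hs, rS_apply, if_pos (InS_j hj hz hzp hs)]
      rw [h2]
      exact Rz_mem sect smt hp hj hz hzp hB' hχ
    exact h1 hf'
  -- the total inequality
  have hDG := finrank_sec sect hp (j z) (Bls (A := G) O) (Finset.Subset.refl _)
  have hDA := finrank_sec sect hp (1 : A) (Bls (A := A) O) (Finset.Subset.refl _)
  rw [← CF_map O] at hDG hDA
  have hDD : ∑ β ∈ Bls (A := A) O, dS p (1 : A) β ≤ ∑ B ∈ Bls (A := G) O, dS p (j z) B := by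
    rw [← hDG, ← hDA]
    refine le_trans (Submodule.finrank_mono ?_)
      (Submodule.finrank_map_le (Rz p j z) ((CF G).map (rS p (j z))))
    rintro w hw
    obtain ⟨w', hw', rfl⟩ := Submodule.mem_map.1 hw
    obtain ⟨f, hf1, hf2, hf3⟩ := Rz_surj hj hz hzp (w := rS p 1 w') (rS_cl (CF_cl hw'))
      (fun s hs => by rw [rS_one, if_pos hs])
    refine Submodule.mem_map.2 ⟨f, Submodule.mem_map.2 ⟨f, cl_mem hf1, hf2⟩, hf3⟩
  have hsw : ∑ B ∈ Bls (A := G) O, ∑ β ∈ JB O j B, dS p (1 : A) β ≤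
      ∑ β ∈ Bls (A := A) O, dS p (1 : A) β := by
    unfold JB
    simp only [Finset.sum_filter]
    rw [Finset.sum_comm]
    refine Finset.sum_le_sum fun β hβ => ?_
    by_cases hex : ∃ B ∈ Bls (A := G) O, ∀ χ ∈ B, ∀ φ ∈ β, ∀ x : G,
        omega χ x - ∑ᶠ v : {v : A // IsConj x (j v)}, φ v / φ 1 ∈ O.nonunits
    · obtain ⟨B, hB, hind⟩ := hex
      rw [Finset.sum_eq_single B]
      · rw [if_pos hind]
      · intro B' hB' hne
        rw [if_neg]
        intro hind'
        apply hne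
        obtain ⟨φ, hφ⟩ := (mem_Bls.1 hβ).nonempty
        obtain ⟨χ, hχ⟩ := (mem_Bls.1 hB).nonempty
        obtain ⟨χ', hχ'⟩ := (mem_Bls.1 hB').nonempty
        rw [block_eqc (mem_Bls.1 hB) hχ, block_eqc (mem_Bls.1 hB') hχ']
        refine Bl_eq ⟨(mem_Bls.1 hB).irr χ hχ, fun x => ?_⟩
        have e1 : omega χ x - omega χ' x =
            (omega χ x - ∑ᶠ v : {v : A // IsConj x (j v)}, φ v / φ 1) +
            -(omega χ' x - ∑ᶠ v : {v : A // IsConj x (j v)}, φ v / φ 1) := by ring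
        rw [e1]
        exact O.nonunits.add_mem (hind χ hχ φ hφ x) (O.nonunits.neg_mem (hind' χ' hχ' φ hφ x))
      · intro h
        exact absurd hB h
    · rw [Finset.sum_eq_zero]
      · exact Nat.zero_le _
      · intro B hB
        rw [if_neg]
        intro hind
        exact hex ⟨B, hB, hind⟩
  have hsum : ∑ B ∈ Bls (A := G) O, dS p (j z) B =
      ∑ B ∈ Bls (A := G) O, ∑ β ∈ JB O j B, dS p (1 : A) β :=
    le_antisymm (Finset.sum_le_sum hle) (hsw.trans hDD)
  have heq := (Finset.sum_eq_sum_iff_of_le hle).1 hsum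
  intro B hB
  rw [heq B (mem_Bls.2 hB)]
  -- the finite sum
  let e : {β // β ∈ JB O j B} ≃ Bj O j B := Equiv.subtypeEquivRight fun β => mem_JB
  have : Fintype (Bj O j B) := Fintype.ofEquiv _ e
  rw [finsum_eq_sum_of_fintype, ← Finset.sum_coe_sort (JB O j B) (fun β => dS p (1 : A) β)]
  exact Fintype.sum_equiv e _ _ fun β => (lB_eq p β.1).symm

end Pool.Agent.Q261.DC
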