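import Mathlib
import Pool.Agent.Q261.DC.Cmp
import Pool.Agent.Q66.DC.UNQ

/-!
# Project DC, job WTS: the weights of corresponding blocks
-/

set_option autoImplicit false

open scoped BigOperators Classical
open Pool.Agent.H254R3.IN Pool.Agent.Y63.KR Pool.Agent.Q17.TC Pool.Agent.Q239.TC
  Pool.Agent.Q222.TC Pool.Agent.Q17.DC Pool.Agent.Q66.DC

noncomputable section

namespace Pool.Agent.Q261.DC

/-- the `p`-part is a power -/
lemma part_pow {Γ : Type} [Group Γ] [Finite Γ] {p : ℕ} [hp : Fact p.Prime] {z s : Γ}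
    (c : Commute z s) (hz : ∃ k, orderOf z = p ^ k) (hs : ¬ p ∣ orderOf s) :
    ∃ a : ℕ, (z * s) ^ a = z := by
  obtain ⟨k, hk⟩ := hz
  have hcop : Nat.Coprime (p ^ k) (orderOf s) :=
    Nat.Coprime.pow_left _ ((Nat.Prime.coprime_iff_not_dvd hp.out).2 hs)
  obtain ⟨a, ha1, ha2⟩ := Nat.chineseRemainder hcop 1 0
  refine ⟨a, ?_⟩
  have h1 : z ^ a = z ^ 1 := pow_eq_pow_iff_modEq.2 (by rw [hk]; exact ha1)
  have h2 : s ^ a = s ^ 0 := pow_eq_pow_iff_modEq.2 ha2
  rw [c.mul_pow, h1, h2, pow_one, pow_zero, mul_one]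

/-- the subgroup of a weight contains an element of `K` outside `N` -/
lemma wt_has (dzv : S_DZV) {Γ G : Type} [Group Γ] [Fintype Γ] [Group G] [Fintype G] (i : Γ →* G)
    (hi : Function.Injective i) {p : ℕ} [Fact p.Prime] {O : ValuationSubring ℂ}
    (hp : (p : ℂ) ∈ O.nonunits) {N K : Subgroup G} {B : Set (Γ → ℂ)} {Q : Subgroup Γ}
    {φ : Subgroup.normalizer (Q : Set Γ) → ℂ} (w : IsWt p O B Q φ)
    (x : Subgroup.normalizer (Q : Set Γ)) (hx : Sec p N K (i x)) (hom : omega φ x ∉ O.nonunits) :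
    ∃ z ∈ Q, i z ∈ K ∧ i z ∉ N := by
  obtain ⟨z, s, h1, h2, h3, h4, h5, h6⟩ := hx
  obtain ⟨a, ha⟩ := part_pow h2 h5 h6
  set z' : Subgroup.normalizer (Q : Set Γ) := x ^ a with hz'
  set s' : Subgroup.normalizer (Q : Set Γ) := z'⁻¹ * x with hs'
  have e1 : i (z' : Γ) = z := by
    rw [hz', ← ha, ← h1]
    push_cast
    rw [map_pow]
  have e2 : i (s' : Γ) = s := by
    rw [hs']
    push_cast
    rw [map_mul, map_inv, e1, h1]
    group
  have e3 : z' * s' = x := by rw [hs', mul_inv_cancel_left]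
  have e4 : Commute z' s' := by
    have h7 : Commute x z' := (Commute.refl x).pow_right a
    exact (Commute.refl z').inv_right.mul_right h7.symm
  have hinj : Function.Injective (i.comp (Subgroup.normalizer (Q : Set Γ)).subtype) :=
    hi.comp Subtype.val_injective
  have e5 : orderOf z' = orderOf z := by
    rw [← e1]
    exact (orderOf_injective _ hinj z').symm
  have e6 : orderOf s' = orderOf s := by
    rw [← e2]
    exact (orderOf_injective _ hinj s').symm
  have hne : φ (z' * s') ≠ 0 := by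
    intro h0
    apply hom
    rw [e3] at h0
    unfold omega
    rw [h0, mul_zero, zero_div]
    exact O.nonunits.zero_mem
  have hn : (Q.subgroupOf (Subgroup.normalizer (Q : Set Γ))).Normal := by
    exact Subgroup.normal_in_normalizer
  have hQ : Q ≤ Subgroup.normalizer (Q : Set Γ) := Subgroup.le_normalizer
  have hcard : Nat.card (Q.subgroupOf (Subgroup.normalizer (Q : Set Γ))) = Nat.card Q :=
    Nat.card_congr (Subgroup.subgroupOfEquivOfLe hQ).toEquiv
  obtain ⟨n, hn1, hn2⟩ := w.defect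
  have key := dzv (Subgroup.normalizer (Q : Set Γ)) p O hp
    (Q.subgroupOf (Subgroup.normalizer (Q : Set Γ))) hn
    (w.isp.of_equiv (Subgroup.subgroupOfEquivOfLe hQ).symm) φ w.irr
    (fun y hy => w.ker y (Subgroup.mem_subgroupOf.1 hy))
    ⟨n, hn1, by rw [hcard]; exact hn2⟩ z' s' e4 (by rw [e5]; exact h5) (by rw [e6]; exact h6) hne
  refine ⟨z', Subgroup.mem_subgroupOf.1 key, ?_, ?_⟩
  · rw [e1]
    exact h3
  · rw [e1]
    exact h4

/-- relations which are bijective on classes -/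
lemma card_quot {X Y : Type} (S : Setoid X) (T : Setoid Y) (R : X → Y → Prop)
    (ha : ∀ x, ∃ y, R x y)
    (hb : ∀ x y x' y', R x y → R x' y' → (S.r x x' ↔ T.r y y'))
    (hc : ∀ y, ∃ x y', R x y' ∧ T.r y' y) : Nat.card (Quotient S) = Nat.card (Quotient T) := by
  choose f hf using ha
  let F : Quotient S → Quotient T := Quotient.map f fun x x' h =>
    (hb x (f x) x' (f x') (hf x) (hf x')).1 h
  refine Nat.card_eq_of_bijective F ⟨?_, ?_⟩
  · intro q q' h
    induction q using Quotient.inductionOn with | _ x =>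
    induction q' using Quotient.inductionOn with | _ x' =>
    have h1 : T.r (f x) (f x') := Quotient.exact h
    exact Quotient.sound ((hb x (f x) x' (f x') (hf x) (hf x')).2 h1)
  · intro q
    induction q using Quotient.inductionOn with | _ y =>
    obtain ⟨x, y', h1, h2⟩ := hc y
    refine ⟨⟦x⟧, Quotient.sound ?_⟩
    have h3 : T.r (f x) y' := (hb x (f x) x y' (hf x) h1).1 (S.iseqv.refl x)
    exact T.iseqv.trans h3 h2

section conj

variable {G : Type} [Group G]

lemma mem_NN {D : Subgroup G} {g : G} : g ∈ Subgroup.normalizer (D : Set G) ↔ conjSub g D = D :=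
  conjSub_eq_iff.symm

lemma NN_conj {Q : Subgroup G} {g x : G} (hx : x ∈ Subgroup.normalizer (conjSub g Q : Set G)) :
    g⁻¹ * x * g ∈ Subgroup.normalizer (Q : Set G) := by
  rw [mem_NN] at hx ⊢
  rw [conjSub_mul, conjSub_mul, hx, conjSub_inv_conjSub]

lemma NN_conj' {Q : Subgroup G} {g x : G} (hx : x ∈ Subgroup.normalizer (Q : Set G)) :
    g * x * g⁻¹ ∈ Subgroup.normalizer (conjSub g Q : Set G) := by
  rw [mem_NN] at hx ⊢
  rw [conjSub_mul, conjSub_mul, conjSub_inv_conjSub, hx]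

/-- conjugation of the normaliser -/
def cN (g : G) (Q : Subgroup G) :
    Subgroup.normalizer (conjSub g Q : Set G) ≃* Subgroup.normalizer (Q : Set G) where
  toFun x := ⟨g⁻¹ * x * g, NN_conj x.2⟩
  invFun x := ⟨g * x * g⁻¹, NN_conj' x.2⟩
  left_inv x := Subtype.ext (by show g * (g⁻¹ * x * g) * g⁻¹ = x; group)
  right_inv x := Subtype.ext (by show g⁻¹ * (g * x * g⁻¹) * g = x; group)
  map_mul' x y := Subtype.ext (by
    show g⁻¹ * (x * y) * g = (g⁻¹ * x * g) * (g⁻¹ * y * g)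
    group)

lemma card_conjSub (g : G) (Q : Subgroup G) : Nat.card (conjSub g Q) = Nat.card Q :=
  (Nat.card_congr (Q.equivMapOfInjective _ (MulAut.conj g).injective).toEquiv).symm

/-- conjugates of weights -/
lemma wt_conj [Finite G] {p : ℕ} {O : ValuationSubring ℂ} {B : Set (G → ℂ)} {Q : Subgroup G}
    {φ : Subgroup.normalizer (Q : Set G) → ℂ} (w : IsWt p O B Q φ) (g : G) :
    IsWt p O B (conjSub g Q) (fun x => φ (cN g Q x)) := by
  refine ⟨?_, irr_comp (cN g Q) w.irr, fun x hx => ?_, ?_, fun χ hχ x => ?_⟩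
  · exact w.isp.of_equiv (Q.equivMapOfInjective _ (MulAut.conj g).injective)
  · rw [map_one]
    exact w.ker _ (mem_conjSub.1 hx)
  · obtain ⟨n, h1, h2⟩ := w.defect
    refine ⟨n, by rw [map_one]; exact h1, ?_⟩
    rw [Nat.card_congr (cN g Q).toEquiv, card_conjSub]
    exact h2
  · have h1 := w.ind χ hχ x
    let E : {y : Subgroup.normalizer (conjSub g Q : Set G) // IsConj x (y : G)} ≃
        {y : Subgroup.normalizer (Q : Set G) // IsConj x (y : G)} :=
      (cN g Q).toEquiv.subtypeEquiv fun y => by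
        have h2 : IsConj (y : G) (g⁻¹ * y * g) := isConj_iff.2 ⟨g⁻¹, by group⟩
        exact ⟨fun h => h.trans h2, fun h => h.trans h2.symm⟩
    rw [← finsum_comp_equiv E] at h1
    have h3 : ∑ᶠ y : {y : Subgroup.normalizer (conjSub g Q : Set G) // IsConj x (y : G)},
        φ (E y) / φ 1 = ∑ᶠ y : {y : Subgroup.normalizer (conjSub g Q : Set G) // IsConj x (y : G)},
        φ (cN g Q y) / φ (cN g Q 1) := by
      apply finsum_congr
      intro y
      rw [map_one]
      rfl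
    rwa [h3] at h1

end conj

section updown

variable {G : Type} [Group G] [Fintype G] {p : ℕ} {O : ValuationSubring ℂ} {H : Subgroup G}
  {B : Set (G → ℂ)} {b : Set (H → ℂ)}

lemma card_NN {D : Subgroup G} (hD : D ≤ H) (hN : NN D ≤ H) :
    Nat.card (Subgroup.normalizer ((D.subgroupOf H : Subgroup H) : Set H)) =
      Nat.card (Subgroup.normalizer (D : Set G)) := Nat.card_congr (eN hD hN).toEquiv

lemma card_sub {D : Subgroup G} (hD : D ≤ H) : Nat.card (D.subgroupOf H) = Nat.card D :=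
  Nat.card_congr (Subgroup.subgroupOfEquivOfLe hD).toEquiv

lemma wt_up (hB : IsBlock O B) (hb : IsBlock O b) (hBb : Ind O B b) {D : Subgroup G} (hD : D ≤ H)
    (hN : NN D ≤ H) {φ : NN (D.subgroupOf H) → ℂ} (w : IsWt p O b (D.subgroupOf H) φ) :
    IsWt p O B D (fun x => φ ((eN hD hN).symm x)) := by
  have hirr : IsIrr (fun x => φ ((eN hD hN).symm x)) := irr_comp (eN hD hN).symm w.irr
  refine ⟨?_, hirr, fun x hx => ?_, ?_, fun χ hχ x => ?_⟩
  · exact w.isp.of_equiv (Subgroup.subgroupOfEquivOfLe hD)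
  · rw [map_one]
    exact w.ker _ (Subgroup.mem_subgroupOf.2 hx)
  · obtain ⟨n, h1, h2⟩ := w.defect
    refine ⟨n, by rw [map_one]; exact h1, ?_⟩
    rw [← card_NN hD hN, ← card_sub hD]
    exact h2
  · obtain ⟨ψ, hψ⟩ := hb.nonempty
    have hχi := hB.irr χ hχ
    have hψi := hb.irr ψ hψ
    rw [ind_red hχi hirr, (ind_red hχi hψi x).1 (hBb χ hχ ψ hψ x)]
    apply stage hD hN hψi hirr
    intro z
    exact (ind_red hψi w.irr z).1 (w.ind ψ hψ z)

lemma wt_down (hEXI : S_EXI) [Fact p.Prime] (hpO : (p : ℂ) ∈ O.nonunits) (hB : IsBlock O B)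
    (huniq : ∀ b' : Set (H → ℂ), IsBlock O b' → Ind O B b' → b' = b)
    {D : Subgroup G} (hD : D ≤ H) (hN : NN D ≤ H) {φ : NN D → ℂ} (w : IsWt p O B D φ) :
    IsWt p O b (D.subgroupOf H) (fun x => φ (eN hD hN x)) := by
  have hirr : IsIrr (fun x => φ (eN hD hN x)) := irr_comp (eN hD hN) w.irr
  obtain ⟨b', hb', hbe⟩ := hEXI G p O hpO H (NN D) D hD w.isp
    (fun x => ⟨fun hx => ⟨hN hx, hx⟩, fun hx => hx.2⟩) φ w.irr
  have hkey : ∀ ψ ∈ b', ∀ z : H, red O (omega ψ z) =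
      red O (sm (fun x : NN (D.subgroupOf H) => φ (eN hD hN x)) z) := by
    intro ψ hψ z
    rw [← ind_red (hb'.irr ψ hψ) hirr z]
    have h1 := hbe ψ hψ z
    have h2 : indc H (NN D) φ (z : G) = ∑ᶠ y : {y : NN (D.subgroupOf H) // IsConj z (y : H)},
        (fun x : NN (D.subgroupOf H) => φ (eN hD hN x)) y /
          (fun x : NN (D.subgroupOf H) => φ (eN hD hN x)) 1 := by
      unfold indc
      let E : {y : NN (D.subgroupOf H) // IsConj z (y : H)} ≃
          {y : NN D // ∃ g ∈ H, g * (z : G) * g⁻¹ = y} :=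
        (eN hD hN).toEquiv.subtypeEquiv (fun y => by
          rw [isConj_iff]
          constructor
          · rintro ⟨c, hc⟩
            exact ⟨c, c.2, congrArg Subtype.val hc⟩
          · rintro ⟨g, hg, hc⟩
            exact ⟨⟨g, hg⟩, Subtype.ext hc⟩)
      rw [← finsum_comp_equiv E]
      apply finsum_congr
      intro y
      simp only [map_one]
      rfl
    rwa [h2] at h1
  have hind : Ind O B b' := by
    intro χ hχ ψ hψ x
    rw [ind_red (hB.irr χ hχ) (hb'.irr ψ hψ) x, stage hD hN (hb'.irr ψ hψ) w.irr (hkey ψ hψ) x]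
    exact (ind_red (hB.irr χ hχ) w.irr x).1 (w.ind χ hχ x)
  have hbb := huniq b' hb' hind
  refine ⟨?_, hirr, fun x hx => ?_, ?_, fun ψ hψ z => ?_⟩
  · exact w.isp.of_equiv (Subgroup.subgroupOfEquivOfLe hD).symm
  · rw [map_one]
    exact w.ker _ (Subgroup.mem_subgroupOf.1 hx)
  · obtain ⟨n, h1, h2⟩ := w.defect
    refine ⟨n, by rw [map_one]; exact h1, ?_⟩
    rw [card_NN hD hN, card_sub hD]
    exact h2
  · rw [← hbb] at hψ
    exact (ind_red (hb'.irr ψ hψ) hirr z).2 (hkey ψ hψ z)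

end updown

theorem t_WTS : S_TI → S_DZV → S_EXI → S_TRS → S_WTS := by
  intro hTI dzv hEXI _ G _ _ p _ O hpO N _ y H P hTD B hB b hb hBb hB2 hb2 huniq
  have hNN : ∀ D : Subgroup G, (∃ z ∈ D, z ∈ KK N y ∧ z ∉ N) → D ≤ H → NN D ≤ H := by
    rintro D ⟨z, hz, hzK, hzN⟩ hDL g hg
    have h1 := (Subgroup.mem_normalizer_iff.mp ((NN D).inv_mem hg) z).mp hz
    rw [inv_inv] at h1
    exact (hTI G p N y H P hTD).1 g z (hDL hz) hzK hzN (hDL h1)
  -- the elements of `K` outside `N` in the subgroups of the weights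
  have hW : ∀ w : Wt p O B, ∃ z ∈ w.1.1, z ∈ KK N y ∧ z ∉ N := by
    rintro ⟨⟨Q, φ⟩, w⟩
    obtain ⟨x, hx1, hx2⟩ := hB2 _ φ w.irr w.ind
    exact wt_has dzv (MonoidHom.id G) Function.injective_id hpO w x hx1 hx2
  have hW' : ∀ w : Wt p O b, ∃ z ∈ w.1.1, (z : G) ∈ KK N y ∧ (z : G) ∉ N := by
    rintro ⟨⟨Q, φ⟩, w⟩
    obtain ⟨x, hx1, hx2⟩ := hb2 _ φ w.irr w.ind
    exact wt_has dzv H.subtype H.subtype_injective hpO w x hx1 hx2
  let R : Wt p O b → Wt p O B → Prop := fun w' w =>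
    w.1.1 ≤ H ∧ w'.1.1 = w.1.1.subgroupOf H ∧
    ∀ (x : Subgroup.normalizer (w'.1.1 : Set H)) (x' : Subgroup.normalizer (w.1.1 : Set G)),
      (x' : G) = ((x : H) : G) → w.1.2 x' = w'.1.2 x
  refine (card_quot (wtS p O b) (wtS p O B) R ?_ ?_ ?_).symm
  · rintro ⟨⟨Q', φ'⟩, w'⟩
    have hz := hW' ⟨⟨Q', φ'⟩, w'⟩
    obtain ⟨D, hD, rfl⟩ : ∃ D : Subgroup G, D ≤ H ∧ Q' = D.subgroupOf H := by
      refine ⟨Q'.map H.subtype, ?_, ?_⟩
      · rintro x ⟨d, -, rfl⟩
        exact d.2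
      · exact (Subgroup.comap_map_eq_self_of_injective H.subtype_injective Q').symm
    have hzD : ∃ z ∈ D, z ∈ KK N y ∧ z ∉ N := by
      obtain ⟨z, h1, h2⟩ := hz
      exact ⟨z, Subgroup.mem_subgroupOf.1 h1, h2⟩
    have hN := hNN D hzD hD
    refine ⟨⟨⟨D, fun x => φ' ((eN hD hN).symm x)⟩, wt_up hB hb hBb hD hN w'⟩, hD, rfl, ?_⟩
    intro x x' hxx
    show φ' ((eN hD hN).symm x') = φ' x
    congr 1
    apply Subtype.ext
    apply Subtype.ext
    exact hxx
  · rintro w₁' w₁ w₂' w₂ ⟨hD1, hQ1, hφ1⟩ ⟨hD2, hQ2, hφ2⟩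
    have hN1 := hNN _ (hW w₁) hD1
    have hN2 := hNN _ (hW w₂) hD2
    -- membership in the normalisers
    have hmem : ∀ {w' : Wt p O b} {w : Wt p O B}, w.1.1 ≤ H → w'.1.1 = w.1.1.subgroupOf H →
        ∀ x : H, x ∈ Subgroup.normalizer (w'.1.1 : Set H) ↔
          (x : G) ∈ Subgroup.normalizer (w.1.1 : Set G) := by
      intro w' w h1 h2 x
      rw [h2]
      have hN := hNN _ (hW w) h1
      constructor
      · intro hx
        exact (eN h1 hN ⟨x, hx⟩).2
      · intro hx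
        exact ((eN h1 hN).symm ⟨x, hx⟩).2
    have hsub : ∀ (g : H), w₂'.1.1 = conjSub g w₁'.1.1 ↔ w₂.1.1 = conjSub (g : G) w₁.1.1 := by
      intro g
      rw [hQ1, hQ2]
      constructor
      · intro h
        ext x
        rw [mem_conjSub]
        constructor
        · intro hx
          have h1 : (⟨x, hD2 hx⟩ : H) ∈ w₂.1.1.subgroupOf H := Subgroup.mem_subgroupOf.2 hx
          rw [h, mem_conjSub] at h1
          exact Subgroup.mem_subgroupOf.1 h1
        · intro hx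
          have hxH : x ∈ H := by
            have h2 := H.mul_mem (H.mul_mem g.2 (hD1 hx)) (H.inv_mem g.2)
            have h3 : (g : G) * ((g : G)⁻¹ * x * g) * (g : G)⁻¹ = x := by group
            rwa [h3] at h2
          have h1 : (⟨x, hxH⟩ : H) ∈ w₂.1.1.subgroupOf H := by
            rw [h, mem_conjSub]
            exact Subgroup.mem_subgroupOf.2 hx
          exact Subgroup.mem_subgroupOf.1 h1
      · intro h
        ext x
        rw [mem_conjSub, Subgroup.mem_subgroupOf, Subgroup.mem_subgroupOf, h, mem_conjSub]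
        rfl
    constructor
    · rintro ⟨g, hg, hφ⟩
      refine ⟨g, (hsub g).1 hg, fun x x' hxx => ?_⟩
      have hxH : (x : G) ∈ H := hN1 x.2
      have hxH' : (x' : G) ∈ H := hN2 x'.2
      have m1 := (hmem hD1 hQ1 ⟨x, hxH⟩).2 x.2
      have m2 := (hmem hD2 hQ2 ⟨x', hxH'⟩).2 x'.2
      rw [hφ2 ⟨⟨x', hxH'⟩, m2⟩ x' rfl, hφ1 ⟨⟨x, hxH⟩, m1⟩ x rfl]
      exact hφ _ _ (Subtype.ext hxx)
    · rintro ⟨g, hg, hφ⟩
      have hgH : g ∈ H := by
        obtain ⟨z, hz, hzK, hzN⟩ := hW w₁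
        have h1 : g⁻¹ ∈ H := by
          apply (hTI G p N y H P hTD).1 g⁻¹ z (hD1 hz) hzK hzN
          rw [inv_inv]
          apply hD2
          rw [hg]
          exact conj_mem_conjSub hz
        have h2 := H.inv_mem h1
        rwa [inv_inv] at h2
      refine ⟨⟨g, hgH⟩, (hsub ⟨g, hgH⟩).2 hg, fun x x' hxx => ?_⟩
      have m1 := (hmem hD1 hQ1 x).1 x.2
      have m2 := (hmem hD2 hQ2 x').1 x'.2
      rw [← hφ2 x' ⟨((x' : H) : G), m2⟩ rfl, ← hφ1 x ⟨((x : H) : G), m1⟩ rfl]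
      exact hφ _ _ (congrArg Subtype.val hxx)
  · rintro ⟨⟨Q, φ⟩, w⟩
    obtain ⟨S, hS⟩ := w.isp.exists_le_sylow
    obtain ⟨g, hg⟩ := MulAction.exists_smul_eq G S P
    have hQP : conjSub g Q ≤ H := by
      intro x hx
      rw [mem_conjSub] at hx
      apply hTD.hPH
      rw [← hg]
      have h1 : g * (g⁻¹ * x * g) * g⁻¹ = x := by group
      rw [← h1]
      exact ⟨g⁻¹ * x * g, hS hx, rfl⟩
    have w₁ := wt_conj w g
    let W₁ : Wt p O B := ⟨⟨conjSub g Q, fun x => φ (cN g Q x)⟩, w₁⟩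
    have hN := hNN (conjSub g Q) (hW W₁) hQP
    have w' := wt_down (b := b) hEXI hpO hB (fun b' h1 h2 => huniq b' h1 h2) hQP hN w₁
    refine ⟨⟨⟨(conjSub g Q).subgroupOf H, fun x => φ (cN g Q (eN hQP hN x))⟩, w'⟩, W₁,
      ⟨hQP, rfl, ?_⟩, ?_⟩
    · intro x x' hxx
      show φ (cN g Q x') = φ (cN g Q (eN hQP hN x))
      congr 2
      exact Subtype.ext hxx
    · refine (wtS p O B).iseqv.symm ⟨g, rfl, fun x x' hxx => ?_⟩
      show φ (cN g Q x') = φ x
      congr 1
      apply Subtype.ext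
      show g⁻¹ * (x' : G) * g = x
      rw [hxx]
      group

end Pool.Agent.Q261.DC
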